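import Mathlib

/-!
Asymptotic part of the improvement of the Kabatiansky-Levenshtein exponent: choice of the weights
on a window of fixed length, and entropy bounds for the binomial coefficients.
-/

set_option autoImplicit false

open Filter Topology Finset

namespace Pool.Agent.Helper93.KLA

/-- the coefficient of the lowering operator -/
noncomputable def cc (D m k : ℕ) : ℝ :=
  ((k : ℝ) + 1) * ((D : ℝ) + 2 * m - 2 + k) / ((D : ℝ) + 2 * m + 2 * k - 2)

/-- the eigenvalue of `∑ D_i A_i` -/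
noncomputable def kap (D j : ℕ) : ℝ :=
  ((D : ℝ) + j - 2) * ((D : ℝ) + 2 * j) / ((D : ℝ) + 2 * j - 2)

/-- exponential rate of `C(D+τD, τD)` -/
noncomputable def Aup (τ : ℝ) : ℝ := ((1 + τ) / τ) ^ τ * (1 + τ)

/-- exponential rate of `C(D, νD)` -/
noncomputable def Blo (ν : ℝ) : ℝ := ((1 - ν) / ν) ^ ν / (1 - ν)

lemma Aup_pos {τ : ℝ} (hτ : 0 < τ) : 0 < Aup τ := by unfold Aup; positivity

lemma Blo_pos {ν : ℝ} (hν : 0 < ν) (hν1 : ν < 1) : 0 < Blo ν := by
  have : 0 < 1 - ν := by linarith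
  unfold Blo; positivity

lemma choose_term_le_one (n k : ℕ) {p : ℝ} (hp : 0 ≤ p) (hp1 : p ≤ 1) :
    (n.choose k : ℝ) * (p ^ k * (1 - p) ^ (n - k)) ≤ 1 := by
  rcases Nat.lt_or_ge n k with h | h
  · rw [Nat.choose_eq_zero_of_lt h]; simp
  have h1 : ∑ m ∈ range (n + 1), p ^ m * (1 - p) ^ (n - m) * (n.choose m : ℝ) = 1 := by
    rw [← add_pow]; simp
  rw [mul_comm]
  refine le_trans ?_ h1.le
  have h0 : 0 ≤ 1 - p := by linarith
  exact Finset.single_le_sum (f := fun m => p ^ m * (1 - p) ^ (n - m) * (n.choose m : ℝ))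
    (fun i _ => by positivity) (by rw [Finset.mem_range]; omega)

/-- upper entropy bound -/
lemma choose_upper {τ : ℝ} (hτ : 0 < τ) {D T : ℕ} (hT : (T : ℝ) ≤ τ * D) :
    ((D + T).choose T : ℝ) ≤ Aup τ ^ D := by
  have h1 : 0 < 1 + τ := by linarith
  have h2 := choose_term_le_one (D + T) T (p := τ / (1 + τ)) (by positivity)
    (by rw [div_le_one h1]; linarith)
  have h3 : 1 - τ / (1 + τ) = 1 / (1 + τ) := by field_simp; ring
  rw [h3, Nat.add_sub_cancel] at h2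
  have h4 : (τ / (1 + τ)) ^ T * (1 / (1 + τ)) ^ D = (((1 + τ) / τ) ^ T * (1 + τ) ^ D)⁻¹ := by
    rw [mul_inv, ← inv_pow, ← inv_pow, inv_div, one_div]
  rw [h4, ← div_eq_mul_inv, div_le_one (by positivity)] at h2
  refine h2.trans ?_
  unfold Aup
  rw [mul_pow]
  gcongr
  have h5 : 1 ≤ (1 + τ) / τ := by rw [one_le_div hτ]; linarith
  rw [← Real.rpow_natCast, ← Real.rpow_natCast, ← Real.rpow_mul (by positivity)]
  exact Real.rpow_le_rpow_of_exponent_le h5 hT

/-- The largest term of the binomial distribution. -/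
lemma term_le {n m : ℕ} {q : ℝ} (hq0 : 0 < q) (hq1 : q < 1) (h1 : (m : ℝ) ≤ (n + 1) * q)
    (h2 : ((n : ℝ) + 1) * q ≤ m + 1) (hmn : m ≤ n) (k : ℕ) (hk : k ≤ n) :
    q ^ k * (1 - q) ^ (n - k) * (n.choose k : ℝ) ≤ q ^ m * (1 - q) ^ (n - m) * (n.choose m : ℝ) := by
  have hq : 0 < 1 - q := by linarith
  set t : ℕ → ℝ := fun k => q ^ k * (1 - q) ^ (n - k) * (n.choose k : ℝ) with ht
  have ht0 : ∀ k, 0 ≤ t k := fun k => by simp only [ht]; positivity
  have hrat : ∀ k, k < n → t (k + 1) * ((k + 1 : ℝ) * (1 - q)) = t k * (((n : ℝ) - k) * q) := by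
    intro k hk
    have e1 : n - k = (n - (k + 1)) + 1 := by omega
    have e2 : ((n.choose (k + 1) : ℕ) : ℝ) * (k + 1) = (n.choose k : ℝ) * ((n : ℝ) - k) := by
      have := Nat.choose_succ_right_eq n k
      have h3 : ((n.choose (k + 1) * (k + 1) : ℕ) : ℝ) = ((n.choose k * (n - k) : ℕ) : ℝ) := by
        rw [this]
      push_cast [Nat.cast_sub hk.le] at h3
      exact h3
    simp only [ht]
    rw [e1, pow_succ (1 - q), pow_succ q]
    linear_combination (q ^ k * q * (1 - q) ^ (n - (k + 1)) * (1 - q)) * e2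
  have hup : ∀ k, k < m → t k ≤ t (k + 1) := by
    intro k hk
    have h3 := hrat k (by omega)
    have hkm : (k : ℝ) + 1 ≤ m := by exact_mod_cast hk
    have h4 : ((k : ℝ) + 1) * (1 - q) ≤ ((n : ℝ) - k) * q := by nlinarith
    have h5 : 0 < ((k : ℝ) + 1) * (1 - q) := by positivity
    have h6 : t k * (((k : ℝ) + 1) * (1 - q)) ≤ t (k + 1) * (((k : ℝ) + 1) * (1 - q)) := by
      rw [h3]; exact mul_le_mul_of_nonneg_left h4 (ht0 k)
    exact le_of_mul_le_mul_right h6 h5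
  have hdn : ∀ k, m ≤ k → k < n → t (k + 1) ≤ t k := by
    intro k hk hkn
    have h3 := hrat k hkn
    have hkm : (m : ℝ) ≤ k := by exact_mod_cast hk
    have h4 : ((n : ℝ) - k) * q ≤ ((k : ℝ) + 1) * (1 - q) := by nlinarith
    have h5 : 0 < ((k : ℝ) + 1) * (1 - q) := by positivity
    have h6 : t (k + 1) * (((k : ℝ) + 1) * (1 - q)) ≤ t k * (((k : ℝ) + 1) * (1 - q)) := by
      rw [h3]; exact mul_le_mul_of_nonneg_left h4 (ht0 k)
    exact le_of_mul_le_mul_right h6 h5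
  change t k ≤ t m
  rcases le_total k m with hkm | hkm
  · -- going up from k to m
    have : ∀ d, k + d ≤ m → t k ≤ t (k + d) := by
      intro d
      induction d with
      | zero => intro _; simp
      | succ d ih =>
        intro hd
        exact (ih (by omega)).trans (hup (k + d) (by omega))
    have h := this (m - k) (by omega)
    rwa [Nat.add_sub_cancel' hkm] at h
  · have : ∀ d, m + d ≤ n → t (m + d) ≤ t m := by
      intro d
      induction d with
      | zero => intro _; simp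
      | succ d ih =>
        intro hd
        exact (hdn (m + d) (by omega) (by omega)).trans (ih (by omega))
    have h := this (k - m) (by omega)
    rwa [Nat.add_sub_cancel' hkm] at h

/-- lower entropy bound -/
lemma choose_lower {ν : ℝ} (hν : 0 < ν) (hν2 : ν ≤ 1 / 2) {D : ℕ} (hD : 1 ≤ D) :
    ν * Blo ν ^ D / D ≤ ((D - 1).choose ⌊ν * D⌋₊ : ℝ) := by
  have hν1 : ν < 1 := by linarith
  have hq : 0 < 1 - ν := by linarith
  have hD0 : (0 : ℝ) < D := by exact_mod_cast hD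
  have hmn : ⌊ν * D⌋₊ ≤ D - 1 := by
    have : ⌊ν * D⌋₊ < D := by
      rw [Nat.floor_lt (by positivity)]
      nlinarith
    omega
  set m := ⌊ν * D⌋₊ with hm
  set n := D - 1 with hn
  have hnD : (n : ℝ) + 1 = D := by
    have : n + 1 = D := by omega
    exact_mod_cast this
  have h1 : (m : ℝ) ≤ ((n : ℝ) + 1) * ν := by
    rw [hnD, mul_comm]; exact Nat.floor_le (by positivity)
  have h2 : ((n : ℝ) + 1) * ν ≤ m + 1 := by
    rw [hnD, mul_comm]; exact (Nat.lt_floor_add_one _).le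
  have h3 : (1 : ℝ) ≤ D * (ν ^ m * (1 - ν) ^ (n - m) * (n.choose m : ℝ)) := by
    have e1 : ∑ k ∈ range (n + 1), ν ^ k * (1 - ν) ^ (n - k) * (n.choose k : ℝ) = 1 := by
      rw [← add_pow]; simp
    refine e1.symm.le.trans ?_
    rw [← hnD]
    have e2 := Finset.sum_le_card_nsmul (range (n + 1))
      (fun k => ν ^ k * (1 - ν) ^ (n - k) * (n.choose k : ℝ))
      (ν ^ m * (1 - ν) ^ (n - m) * (n.choose m : ℝ))
      (fun k hk => term_le hν hν1 h1 h2 hmn k (by simp at hk; omega))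
    rw [card_range, nsmul_eq_mul] at e2
    push_cast at e2
    exact e2
  -- rewrite
  have h4 : ν ^ m * (1 - ν) ^ (n - m) = (((1 - ν) / ν) ^ m)⁻¹ * (1 - ν) ^ n := by
    have : (1 - ν) ^ n = (1 - ν) ^ m * (1 - ν) ^ (n - m) := by
      rw [← pow_add]; congr 1; omega
    rw [this, div_pow]
    field_simp
  rw [h4] at h3
  have h5 : ((1 - ν) / ν) ^ m / (1 - ν) ^ n ≤ D * (n.choose m : ℝ) := by
    rw [div_le_iff₀ (by positivity)]
    have h6 : 0 < ((1 - ν) / ν) ^ m := by positivity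
    calc ((1 - ν) / ν) ^ m = ((1 - ν) / ν) ^ m * 1 := by ring
      _ ≤ ((1 - ν) / ν) ^ m * (D * ((((1 - ν) / ν) ^ m)⁻¹ * (1 - ν) ^ n * (n.choose m : ℝ))) :=
          mul_le_mul_of_nonneg_left h3 h6.le
      _ = D * (n.choose m : ℝ) * (1 - ν) ^ n := by field_simp
  rw [div_le_iff₀ hD0, mul_comm _ (D : ℝ)]
  refine le_trans ?_ h5
  have h6 : 1 ≤ (1 - ν) / ν := by rw [one_le_div hν]; linarith
  have h7 : ((1 - ν) / ν) ^ (ν * D - 1) ≤ ((1 - ν) / ν) ^ m := by
    rw [← Real.rpow_natCast]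
    apply Real.rpow_le_rpow_of_exponent_le h6
    rw [hnD] at h2
    linarith
  have h8 : ((1 - ν) / ν) ^ (ν * D - 1) = (((1 - ν) / ν) ^ ν) ^ D * (ν / (1 - ν)) := by
    rw [Real.rpow_sub (by positivity), Real.rpow_one, Real.rpow_mul (by positivity),
      Real.rpow_natCast]
    field_simp
  have h9 : (1 - ν) ^ D = (1 - ν) ^ n * (1 - ν) := by
    rw [← pow_succ]; congr 1; omega
  calc ν * Blo ν ^ D = (((1 - ν) / ν) ^ ν) ^ D * (ν / (1 - ν)) / (1 - ν) ^ n := by
        unfold Blo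
        rw [div_pow, h9]
        field_simp
    _ ≤ ((1 - ν) / ν) ^ m / (1 - ν) ^ n := by
        rw [← h8]
        gcongr

/-- the recursion for the sine weights on a window -/
lemma window {lo T : ℕ} (hlo : lo ≤ T) {g ρ : ℝ} (hρ : 0 < ρ) (α β : ℕ → ℝ)
    (hα : ∀ j, lo ≤ j → j ≤ T → g ≤ α j / ρ) (hβ : ∀ j, lo ≤ j → j ≤ T → g ≤ ρ * β j)
    (h0 : 1 ≤ lo) :
    ∃ b : ℕ → ℝ, (∀ j, 0 ≤ b j) ∧ (∃ j, 0 < b j) ∧ (∀ j, b j ≠ 0 → lo ≤ j ∧ j ≤ T) ∧
      ∀ j, lo ≤ j → j ≤ T →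
        2 * g * Real.cos (Real.pi / ((T - lo : ℕ) + 2)) * b j ≤ b (j - 1) * α j + b (j + 1) * β j := by
  set L : ℝ := ((T - lo : ℕ) : ℝ) + 2 with hL
  have hL0 : 0 < L := by positivity
  have hTL : (T : ℝ) - lo = ((T - lo : ℕ) : ℝ) := by rw [Nat.cast_sub hlo]
  set θ : ℝ := Real.pi / L with hθ
  have hθ0 : 0 < θ := by positivity
  -- the full sine sequence
  set S : ℕ → ℝ := fun j => Real.sin (θ * ((j : ℝ) - lo + 1)) with hS
  set b : ℕ → ℝ := fun j => if lo ≤ j ∧ j ≤ T then ρ ^ j * S j else 0 with hb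
  have hSpos : ∀ j : ℕ, lo ≤ j → j ≤ T → 0 < S j := by
    intro j h1 h2
    have h1' : (lo : ℝ) ≤ j := by exact_mod_cast h1
    have h2' : (j : ℝ) ≤ T := by exact_mod_cast h2
    simp only [hS]
    apply Real.sin_pos_of_pos_of_lt_pi
    · have : 0 < (j : ℝ) - lo + 1 := by linarith
      positivity
    · have : (j : ℝ) - lo + 1 < L := by linarith
      calc θ * ((j : ℝ) - lo + 1) < θ * L := by gcongr
        _ = Real.pi := by rw [hθ]; field_simp
  have hb0 : ∀ j, 0 ≤ b j := by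
    intro j
    simp only [hb]
    split_ifs with h
    · have := hSpos j h.1 h.2
      positivity
    · exact le_refl _
  -- on the extended window `b j = ρ ^ j * S j`
  have hbS : ∀ j : ℕ, lo ≤ j → j ≤ T + 1 → b j = ρ ^ j * S j := by
    intro j h1 h2
    simp only [hb]
    split_ifs with h
    · rfl
    · have hj : j = T + 1 := by omega
      have : S j = 0 := by
        simp only [hS, hj]
        have : θ * (((T + 1 : ℕ) : ℝ) - lo + 1) = Real.pi := by
          push_cast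
          have : (T : ℝ) + 1 - lo + 1 = L := by linarith
          rw [this, hθ]; field_simp
        rw [this, Real.sin_pi]
      rw [this, mul_zero]
  have hbS' : ∀ j : ℕ, lo ≤ j + 1 → j + 1 ≤ T → b j = ρ ^ j * S j := by
    intro j h1 h2
    simp only [hb]
    split_ifs with h
    · rfl
    · have hj : j + 1 = lo := by omega
      have : S j = 0 := by
        simp only [hS, ← hj]
        push_cast
        have : θ * ((j : ℝ) - (j + 1) + 1) = 0 := by ring
        rw [this, Real.sin_zero]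
      rw [this, mul_zero]
  refine ⟨b, hb0, ⟨lo, ?_⟩, ?_, ?_⟩
  · simp only [hb]
    rw [if_pos ⟨le_refl _, hlo⟩]
    have := hSpos lo (le_refl _) hlo
    positivity
  · intro j hj
    by_contra h
    apply hj
    simp only [hb]
    rw [if_neg h]
  · intro j h1 h2
    obtain ⟨i, rfl⟩ : ∃ i, j = i + 1 := ⟨j - 1, by omega⟩
    rw [Nat.add_sub_cancel]
    have e1 := hbS' i h1 h2
    have e2 := hbS (i + 1) h1 (by omega)
    have e3 := hbS (i + 1 + 1) (by omega) (by omega)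
    have hrec : S i + S (i + 1 + 1) = 2 * Real.cos θ * S (i + 1) := by
      simp only [hS]
      push_cast
      have a1 : θ * ((i : ℝ) - lo + 1) = θ * ((i : ℝ) + 1 - lo + 1) - θ := by ring
      have a2 : θ * ((i : ℝ) + 1 + 1 - lo + 1) = θ * ((i : ℝ) + 1 - lo + 1) + θ := by ring
      rw [a1, a2, Real.sin_sub, Real.sin_add]
      ring
    have hSi : 0 ≤ ρ ^ (i + 1) * S i := by
      have := hb0 i
      rw [e1] at this
      rw [pow_succ]
      nlinarith
    have hSi2 : 0 ≤ ρ ^ (i + 1) * S (i + 1 + 1) := by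
      have := hb0 (i + 1 + 1)
      rw [e3, pow_succ] at this
      nlinarith
    have f1 := mul_le_mul_of_nonneg_right (hα (i + 1) h1 h2) hSi
    have f2 := mul_le_mul_of_nonneg_right (hβ (i + 1) h1 h2) hSi2
    have e4 : b i * α (i + 1) = α (i + 1) / ρ * (ρ ^ (i + 1) * S i) := by
      rw [e1, pow_succ]; field_simp
    have e5 : b (i + 1 + 1) * β (i + 1) = ρ * β (i + 1) * (ρ ^ (i + 1) * S (i + 1 + 1)) := by
      rw [e3, pow_succ]; ring
    rw [e4, e5, e2]
    calc 2 * g * Real.cos θ * (ρ ^ (i + 1) * S (i + 1))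
        = g * (ρ ^ (i + 1) * S i) + g * (ρ ^ (i + 1) * S (i + 1 + 1)) := by
          linear_combination (-g * ρ ^ (i + 1)) * hrec
      _ ≤ _ := add_le_add f1 f2

lemma coef_eq {D m j : ℕ} (hD : 3 ≤ D) (hmj : m ≤ j) :
    cc D m (j - m) ^ 2 / kap D j =
      (((j : ℝ) - m + 1) * ((D : ℝ) + m + j - 2)) ^ 2 /
        (((D : ℝ) + 2 * j - 2) * ((D : ℝ) + j - 2) * ((D : ℝ) + 2 * j)) := by
  have hD' : (3 : ℝ) ≤ D := by exact_mod_cast hD
  have hj : (0 : ℝ) ≤ j := Nat.cast_nonneg _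
  have h1 : (0 : ℝ) < (D : ℝ) + 2 * j - 2 := by linarith
  have h2 : (0 : ℝ) < (D : ℝ) + j - 2 := by linarith
  have h3 : (0 : ℝ) < (D : ℝ) + 2 * j := by linarith
  unfold cc kap
  rw [Nat.cast_sub hmj]
  have e1 : (D : ℝ) + 2 * m + 2 * ((j : ℝ) - m) - 2 = (D : ℝ) + 2 * j - 2 := by ring
  have e2 : (D : ℝ) + 2 * m - 2 + ((j : ℝ) - m) = (D : ℝ) + m + j - 2 := by ring
  rw [e1, e2]
  field_simp

/-- lower bound of the coefficients on the window -/
lemma coef_lower {τ ν g : ℝ} (hν : 0 < ν) (hντ : ν < τ) (L : ℕ)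
    (hg : g ^ 2 * τ < (τ - ν) ^ 2 * (1 + τ + ν) ^ 2 / ((1 + 2 * τ) ^ 2 * (1 + τ))) :
    ∀ᶠ D : ℕ in atTop, ∀ j : ℕ, ⌊τ * D⌋₊ - L ≤ j → j ≤ ⌊τ * D⌋₊ →
      g ^ 2 * τ * D ≤ cc D ⌊ν * D⌋₊ (j - ⌊ν * D⌋₊) ^ 2 / kap D j := by
  have hτ : 0 < τ := hν.trans hντ
  have t1 : Tendsto (fun D : ℕ => (1 : ℝ) / (D : ℝ)) atTop (𝓝 0) :=
    tendsto_one_div_atTop_nhds_zero_nat
  have t2 : Tendsto (fun D : ℕ => (τ - ν - (L + 1) * (1 / (D : ℝ))) ^ 2 *
      (1 + τ + ν - (L + 4) * (1 / (D : ℝ))) ^ 2 / ((1 + 2 * τ) ^ 2 * (1 + τ))) atTop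
      (𝓝 ((τ - ν - (L + 1) * 0) ^ 2 * (1 + τ + ν - (L + 4) * 0) ^ 2 /
        ((1 + 2 * τ) ^ 2 * (1 + τ)))) := by
    apply Tendsto.div_const
    apply Tendsto.mul
    · exact (tendsto_const_nhds.sub (tendsto_const_nhds.mul t1)).pow 2
    · exact (tendsto_const_nhds.sub (tendsto_const_nhds.mul t1)).pow 2
  have t3 : Tendsto (fun D : ℕ => τ - ν - (L + 1) * (1 / (D : ℝ))) atTop
      (𝓝 (τ - ν - (L + 1) * 0)) := tendsto_const_nhds.sub (tendsto_const_nhds.mul t1)
  have t4 : Tendsto (fun D : ℕ => 1 + τ + ν - (L + 4) * (1 / (D : ℝ))) atTop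
      (𝓝 (1 + τ + ν - (L + 4) * 0)) := tendsto_const_nhds.sub (tendsto_const_nhds.mul t1)
  rw [mul_zero, mul_zero, sub_zero, sub_zero] at t2
  rw [mul_zero, sub_zero] at t3 t4
  filter_upwards [t2.eventually (lt_mem_nhds hg),
    t3.eventually (lt_mem_nhds (show (0 : ℝ) < τ - ν by linarith)),
    t4.eventually (lt_mem_nhds (show (0 : ℝ) < 1 + τ + ν by linarith)),
    eventually_ge_atTop 3] with D h2 h3 h4 hD j hj1 hj2
  have hD' : (3 : ℝ) ≤ D := by exact_mod_cast hD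
  have hD0 : (0 : ℝ) < D := by linarith
  set T := ⌊τ * D⌋₊ with hT
  set m := ⌊ν * D⌋₊ with hm
  have hT1 : (T : ℝ) ≤ τ * D := Nat.floor_le (by positivity)
  have hT2 : τ * D < T + 1 := Nat.lt_floor_add_one _
  have hm1 : (m : ℝ) ≤ ν * D := Nat.floor_le (by positivity)
  have hm2 : ν * D < m + 1 := Nat.lt_floor_add_one _
  have hjT : (j : ℝ) ≤ T := by exact_mod_cast hj2
  have hjL : (T : ℝ) ≤ j + L := by
    have : T ≤ j + L := by omega
    exact_mod_cast this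
  have a3 : 0 < (τ - ν) * D - (L + 1) := by
    have := mul_pos h3 hD0
    have e : (τ - ν - (L + 1) * (1 / (D : ℝ))) * D = (τ - ν) * D - (L + 1) := by field_simp
    rwa [e] at this
  have a4 : 0 < (1 + τ + ν) * D - (L + 4) := by
    have := mul_pos h4 hD0
    have e : (1 + τ + ν - (L + 4) * (1 / (D : ℝ))) * D = (1 + τ + ν) * D - (L + 4) := by
      field_simp
    rwa [e] at this
  have hmj : m ≤ j := by
    have : (m : ℝ) ≤ j := by nlinarith
    exact_mod_cast this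
  rw [coef_eq hD hmj]
  have hj0 : (0 : ℝ) ≤ j := Nat.cast_nonneg _
  have b1 : (τ - ν) * D - (L + 1) ≤ (j : ℝ) - m + 1 := by nlinarith
  have b2 : (1 + τ + ν) * D - (L + 4) ≤ (D : ℝ) + m + j - 2 := by nlinarith
  have c1 : (D : ℝ) + 2 * j - 2 ≤ (1 + 2 * τ) * D := by nlinarith
  have c2 : (D : ℝ) + j - 2 ≤ (1 + τ) * D := by nlinarith
  have c3 : (D : ℝ) + 2 * j ≤ (1 + 2 * τ) * D := by nlinarith
  have d1 : (0 : ℝ) < (D : ℝ) + 2 * j - 2 := by linarith
  have d2 : (0 : ℝ) < (D : ℝ) + j - 2 := by linarith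
  have d3 : (0 : ℝ) < (D : ℝ) + 2 * j := by linarith
  calc g ^ 2 * τ * D ≤ ((τ - ν - (L + 1) * (1 / (D : ℝ))) ^ 2 *
      (1 + τ + ν - (L + 4) * (1 / (D : ℝ))) ^ 2 / ((1 + 2 * τ) ^ 2 * (1 + τ))) * D := by
        gcongr
    _ = (((τ - ν) * D - (L + 1)) * ((1 + τ + ν) * D - (L + 4))) ^ 2 /
        (((1 + 2 * τ) * D) * ((1 + τ) * D) * ((1 + 2 * τ) * D)) := by
        field_simp
    _ ≤ _ := by
        apply div_le_div₀ (by positivity) _ (by positivity)
        · gcongr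
        · apply pow_le_pow_left₀ (by positivity)
          exact mul_le_mul b1 b2 a4.le (by linarith)

/-- the purely numerical content of the asymptotic analysis: the finite bound with suitable
weights gives the exponent `(1+τ)log(1+τ) - τ log τ - H(ν)`. -/
theorem asymp {s κ τ ν : ℝ} (hs0 : 0 ≤ s) (hs1 : s ≤ 1) (hν : 0 < ν) (hν2 : ν ≤ 1 / 2)
    (hντ : ν < τ)
    (hcond : s * ((1 + 2 * τ) * Real.sqrt (τ * (1 + τ))) < 2 * ((τ - ν) * (1 + τ + ν)))
    (hκ : Aup τ < 2 ^ κ * Blo ν) :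
    ∀ᶠ D : ℕ in atTop, ∃ (m lo T : ℕ) (b : ℕ → ℝ) (s' : ℝ),
      2 ≤ m ∧ m ≤ lo ∧ lo ≤ T ∧ (∀ j, 0 ≤ b j) ∧ (∃ j, 0 < b j) ∧
      (∀ j, b j ≠ 0 → lo ≤ j ∧ j ≤ T) ∧ s < s' ∧
      (∀ j, lo ≤ j → j ≤ T →
        s' * b j ≤ b (j - 1) / j + b (j + 1) * cc D m (j - m) ^ 2 / kap D j) ∧
      (0 : ℝ) < ((D - 1).choose m : ℝ) ∧
      (1 - s) * ∑ j ∈ Icc lo T, ((D + j - 1).choose j : ℝ) ≤
        2 ^ (κ * D) * ((s' - s) * ((D - 1).choose m : ℝ)) := by
  have hτ : 0 < τ := hν.trans hντ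
  set R : ℝ := (1 + 2 * τ) * Real.sqrt (τ * (1 + τ)) with hR
  have hR0 : 0 < R := by positivity
  set Λ : ℝ := ((τ - ν) * (1 + τ + ν)) / R with hΛ
  have hsΛ : s / 2 < Λ := by
    rw [hΛ, lt_div_iff₀ hR0]; linarith
  obtain ⟨g, hg1, hg2⟩ := exists_between hsΛ
  have hg0 : 0 < g := by linarith
  -- the window length
  obtain ⟨L, hL⟩ : ∃ L : ℕ, s < 2 * g * Real.cos (Real.pi / ((L : ℝ) + 2)) := by
    have t1 : Tendsto (fun L : ℕ => Real.pi / ((L : ℝ) + 2)) atTop (𝓝 0) := by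
      apply Tendsto.div_atTop tendsto_const_nhds
      exact tendsto_atTop_add_const_right _ _ tendsto_natCast_atTop_atTop
    have t2 : Tendsto (fun L : ℕ => 2 * g * Real.cos (Real.pi / ((L : ℝ) + 2))) atTop
        (𝓝 (2 * g * Real.cos 0)) :=
      ((Real.continuous_cos.tendsto _).comp t1).const_mul _
    rw [Real.cos_zero, mul_one] at t2
    exact (t2.eventually (lt_mem_nhds (by linarith))).exists
  set s' : ℝ := 2 * g * Real.cos (Real.pi / ((L : ℝ) + 2)) with hs'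
  have hs's : 0 < s' - s := by linarith
  have hgτ : g ^ 2 * τ < (τ - ν) ^ 2 * (1 + τ + ν) ^ 2 / ((1 + 2 * τ) ^ 2 * (1 + τ)) := by
    have e1 : (τ - ν) ^ 2 * (1 + τ + ν) ^ 2 / ((1 + 2 * τ) ^ 2 * (1 + τ)) = Λ ^ 2 * τ := by
      rw [hΛ, hR, div_pow, mul_pow, mul_pow, Real.sq_sqrt (by positivity)]
      field_simp
    rw [e1]
    gcongr
  -- growth comparison
  set x : ℝ := Aup τ / (2 ^ κ * Blo ν) with hx
  have hB := Blo_pos hν (by linarith : ν < 1)
  have hA := Aup_pos hτ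
  have hx1 : x < 1 := by rw [hx, div_lt_one (by positivity)]; exact hκ
  have hx0 : 0 ≤ x := by positivity
  have hc1 : 0 ≤ (1 - s) * (L + 1) := mul_nonneg (by linarith) (by positivity)
  have t5 : Tendsto (fun D : ℕ => (1 - s) * (L + 1) * ((D : ℝ) * x ^ D)) atTop (𝓝 0) := by
    have := (tendsto_self_mul_const_pow_of_lt_one hx0 hx1).const_mul ((1 - s) * ((L : ℝ) + 1))
    rwa [mul_zero] at this
  have t6 : Tendsto (fun D : ℕ => (τ - ν) * (D : ℝ)) atTop atTop :=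
    tendsto_natCast_atTop_atTop.const_mul_atTop (by linarith)
  have t7 : Tendsto (fun D : ℕ => ν * (D : ℝ)) atTop atTop :=
    tendsto_natCast_atTop_atTop.const_mul_atTop hν
  filter_upwards [coef_lower hν hντ L hgτ, t5.eventually (gt_mem_nhds
      (show 0 < (s' - s) * ν by positivity)), t6.eventually_ge_atTop ((L : ℝ) + 2),
    t7.eventually_ge_atTop 3, eventually_ge_atTop 3] with D h1 h2 h3 h4 hD
  have hD' : (3 : ℝ) ≤ D := by exact_mod_cast hD
  have hD0 : (0 : ℝ) < D := by linarith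
  set T := ⌊τ * D⌋₊ with hT
  set m := ⌊ν * D⌋₊ with hm
  have hT1 : (T : ℝ) ≤ τ * D := Nat.floor_le (by positivity)
  have hT2 : τ * D < T + 1 := Nat.lt_floor_add_one _
  have hm1 : (m : ℝ) ≤ ν * D := Nat.floor_le (by positivity)
  have hm2 : 3 ≤ m := Nat.le_floor (by exact_mod_cast h4)
  have hmT : m + L + 1 ≤ T := by
    have : (m : ℝ) + L + 1 < T + 1 := by nlinarith
    have : m + L + 1 < T + 1 := by exact_mod_cast this
    omega
  have hlo : T - (T - L) = L := by omega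
  obtain ⟨b, hb0, hb1, hb2, hb3⟩ := window (lo := T - L) (T := T) (g := g)
    (ρ := 1 / (g * τ * D)) (by omega) (by positivity) (fun j => 1 / (j : ℝ))
    (fun j => cc D m (j - m) ^ 2 / kap D j)
    (by
      intro j hj1 hj2
      have hj0 : (0 : ℝ) < j := by
        have : 0 < j := by omega
        exact_mod_cast this
      have hjT : (j : ℝ) ≤ T := by exact_mod_cast hj2
      rw [div_div_eq_mul_div, div_one, one_div, inv_mul_eq_div, le_div_iff₀ hj0]
      nlinarith)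
    (by
      intro j hj1 hj2
      have := h1 j hj1 hj2
      rw [one_div, inv_mul_eq_div, le_div_iff₀ (by positivity)]
      calc g * (g * τ * D) = g ^ 2 * τ * D := by ring
        _ ≤ _ := this)
    (by omega)
  rw [hlo] at hb3
  have hch : (0 : ℝ) < ((D - 1).choose m : ℝ) := by
    have : m ≤ D - 1 := by
      have : m < D := by
        rw [hm, Nat.floor_lt (by positivity)]
        nlinarith
      omega
    exact_mod_cast Nat.choose_pos this
  refine ⟨m, T - L, T, b, s', by omega, by omega, by omega, hb0, hb1, hb2, hL, ?_, hch, ?_⟩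
  · intro j hj1 hj2
    refine (hb3 j hj1 hj2).trans (le_of_eq ?_)
    ring
  · -- the binomial coefficients
    have e1 : ∑ j ∈ Icc (T - L) T, ((D + j - 1).choose j : ℝ) ≤ (L + 1) * Aup τ ^ D := by
      have e2 := Finset.sum_le_card_nsmul (Icc (T - L) T)
        (fun j => ((D + j - 1).choose j : ℝ)) (Aup τ ^ D) (by
          intro j hj
          rw [Finset.mem_Icc] at hj
          refine le_trans ?_ (choose_upper hτ hT1)
          have f1 : (D + j - 1).choose j ≤ (D + T).choose T := by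
            calc (D + j - 1).choose j ≤ (D + j).choose j := Nat.choose_le_choose _ (by omega)
              _ = (D + j).choose D := (Nat.choose_symm_add).symm
              _ ≤ (D + T).choose D := Nat.choose_le_choose _ (by omega)
              _ = (D + T).choose T := Nat.choose_symm_add
          exact_mod_cast f1)
      rw [nsmul_eq_mul, Nat.card_Icc] at e2
      have : T + 1 - (T - L) = L + 1 := by omega
      rw [this] at e2
      push_cast at e2
      exact e2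
    have e3 := choose_lower hν hν2 (D := D) (by omega)
    have e4 : (2 : ℝ) ^ (κ * D) = (2 ^ κ) ^ D := by
      rw [Real.rpow_mul (by norm_num), Real.rpow_natCast]
    calc (1 - s) * ∑ j ∈ Icc (T - L) T, ((D + j - 1).choose j : ℝ)
        ≤ (1 - s) * ((L + 1) * Aup τ ^ D) := mul_le_mul_of_nonneg_left e1 (by linarith)
      _ = ((1 - s) * (L + 1) * (D * x ^ D)) * ((2 ^ κ * Blo ν) ^ D / D) := by
          rw [hx, div_pow]
          have : (2 ^ κ * Blo ν) ^ D ≠ 0 := by positivity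
          field_simp
      _ ≤ ((s' - s) * ν) * ((2 ^ κ * Blo ν) ^ D / D) := by
          apply mul_le_mul_of_nonneg_right h2.le (by positivity)
      _ = (2 ^ κ) ^ D * ((s' - s) * (ν * Blo ν ^ D / D)) := by
          rw [mul_pow]; ring
      _ ≤ 2 ^ (κ * D) * ((s' - s) * ((D - 1).choose m : ℝ)) := by
          rw [e4]
          gcongr

set_option exponentiation.threshold 10000 in
lemma num_nat : 818 ^ 4090 * 250 ^ 3750 < 2 ^ 1496 * 251 ^ 3765 * 65 ^ 325 * 753 ^ 3765 := by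
  norm_num

lemma num_exp : Aup (65 / 753) < 2 ^ (1496 / 3765 : ℝ) * Blo (1 / 251) := by
  have h1 : (0 : ℝ) < 65 / 753 := by norm_num
  have hA := Aup_pos h1
  have hB := Blo_pos (ν := 1 / 251) (by norm_num) (by norm_num)
  refine lt_of_pow_lt_pow_left₀ 3765 (by positivity) ?_
  have e1 : Aup (65 / 753) ^ 3765 = (818 / 65) ^ 325 * (818 / 753) ^ 3765 := by
    unfold Aup
    rw [mul_pow, ← Real.rpow_natCast (((1 + 65 / 753 : ℝ) / (65 / 753)) ^ (65 / 753 : ℝ)),
      ← Real.rpow_mul (by norm_num)]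
    have a1 : (65 / 753 : ℝ) * ((3765 : ℕ) : ℝ) = ((325 : ℕ) : ℝ) := by norm_num
    rw [a1, Real.rpow_natCast]
    have a2 : (1 + 65 / 753 : ℝ) / (65 / 753) = 818 / 65 := by norm_num
    have a3 : (1 + 65 / 753 : ℝ) = 818 / 753 := by norm_num
    rw [a2, a3]
  have e2 : (2 ^ (1496 / 3765 : ℝ) * Blo (1 / 251)) ^ 3765 =
      2 ^ 1496 * (250 ^ 15 * (251 / 250) ^ 3765) := by
    unfold Blo
    rw [mul_pow, div_pow, ← Real.rpow_natCast (2 ^ (1496 / 3765 : ℝ)),
      ← Real.rpow_mul (by norm_num),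
      ← Real.rpow_natCast (((1 - 1 / 251 : ℝ) / (1 / 251)) ^ (1 / 251 : ℝ)),
      ← Real.rpow_mul (by norm_num)]
    have a1 : (1496 / 3765 : ℝ) * ((3765 : ℕ) : ℝ) = ((1496 : ℕ) : ℝ) := by norm_num
    have a2 : (1 / 251 : ℝ) * ((3765 : ℕ) : ℝ) = ((15 : ℕ) : ℝ) := by norm_num
    rw [a1, a2, Real.rpow_natCast, Real.rpow_natCast]
    have a3 : (1 - 1 / 251 : ℝ) / (1 / 251) = 250 := by norm_num
    have a4 : (1 - 1 / 251 : ℝ) = 250 / 251 := by norm_num
    rw [a3, a4, div_eq_mul_inv, ← inv_pow, inv_div]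
  rw [e1, e2]
  have h := num_nat
  have h' : (818 : ℝ) ^ 4090 * 250 ^ 3750 < 2 ^ 1496 * 251 ^ 3765 * 65 ^ 325 * 753 ^ 3765 := by
    exact_mod_cast h
  have k1 : (818 : ℝ) ^ 4090 = 818 ^ 325 * 818 ^ 3765 := by rw [← pow_add]
  have k2 : (250 : ℝ) ^ 3765 = 250 ^ 15 * 250 ^ 3750 := by rw [← pow_add]
  rw [div_pow, div_pow, div_pow, k2]
  rw [k1] at h'
  have p1 : (0 : ℝ) < 65 ^ 325 := by positivity
  have p2 : (0 : ℝ) < 753 ^ 3765 := by positivity
  have p3 : (0 : ℝ) < 250 ^ 15 := by positivity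
  have p4 : (0 : ℝ) < 250 ^ 3750 := by positivity
  generalize (65 : ℝ) ^ 325 = u at *
  generalize (753 : ℝ) ^ 3765 = v at *
  generalize (250 : ℝ) ^ 15 = d at *
  generalize (250 : ℝ) ^ 3750 = f at *
  generalize (818 : ℝ) ^ 325 = a at *
  generalize (818 : ℝ) ^ 3765 = b at *
  generalize (2 : ℝ) ^ 1496 = c at *
  generalize (251 : ℝ) ^ 3765 = e at *
  rw [div_mul_div_comm, div_lt_iff₀ (by positivity)]
  have h3 : c * (d * (e / (d * f))) * (u * v) = c * e * u * v / f := by field_simp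
  rw [h3, lt_div_iff₀ p4]
  exact h'

lemma num_cond : (1 / 2 : ℝ) * ((1 + 2 * (65 / 753)) * Real.sqrt (65 / 753 * (1 + 65 / 753))) <
    2 * ((65 / 753 - 1 / 251) * (1 + 65 / 753 + 1 / 251)) := by
  have h : Real.sqrt (65 / 753 * (1 + 65 / 753)) <
      4 * ((65 / 753 - 1 / 251) * (1 + 65 / 753 + 1 / 251)) / (1 + 2 * (65 / 753)) := by
    rw [Real.sqrt_lt' (by norm_num)]
    norm_num
  rw [lt_div_iff₀ (by norm_num)] at h
  linarith

/-- **The asymptotic analysis at 60 degrees.** -/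
theorem asymp_sixty : ∀ᶠ D : ℕ in atTop, ∃ (m lo T : ℕ) (b : ℕ → ℝ) (s' : ℝ),
      2 ≤ m ∧ m ≤ lo ∧ lo ≤ T ∧ (∀ j, 0 ≤ b j) ∧ (∃ j, 0 < b j) ∧
      (∀ j, b j ≠ 0 → lo ≤ j ∧ j ≤ T) ∧ 1 / 2 < s' ∧
      (∀ j, lo ≤ j → j ≤ T →
        s' * b j ≤ b (j - 1) / j + b (j + 1) * cc D m (j - m) ^ 2 / kap D j) ∧
      (0 : ℝ) < ((D - 1).choose m : ℝ) ∧
      (1 - 1 / 2) * ∑ j ∈ Icc lo T, ((D + j - 1).choose j : ℝ) ≤
        2 ^ ((1496 / 3765 : ℝ) * D) * ((s' - 1 / 2) * ((D - 1).choose m : ℝ)) :=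
  asymp (s := 1 / 2) (κ := 1496 / 3765) (τ := 65 / 753) (ν := 1 / 251) (by norm_num) (by norm_num)
    (by norm_num) (by norm_num) (by norm_num) num_cond num_exp

/-- comparison of the two lower bounds for the dimension -/
lemma choose_le_harm {D m : ℕ} (hm : 2 ≤ m) (hmD : m < D) :
    ((D - 1).choose m : ℝ) ≤ ((D + m - 1).choose m : ℝ) - ((D + m - 2).choose (m - 1) : ℝ) -
      ((D + m - 3).choose (m - 2) : ℝ) := by
  obtain ⟨k, rfl⟩ : ∃ k, m = k + 2 := ⟨m - 2, by omega⟩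
  have e1 : D + (k + 2) - 1 = (D + k) + 1 := by omega
  have e2 : D + (k + 2) - 2 = D + k := by omega
  have e3 : D + (k + 2) - 3 = D + k - 1 := by omega
  have e4 : k + 2 - 1 = k + 1 := by omega
  have e5 : k + 2 - 2 = k := by omega
  rw [e1, e2, e3, e4, e5, Nat.choose_succ_succ]
  obtain ⟨a, ha⟩ : ∃ a, D + k = a + 1 := ⟨D + k - 1, by omega⟩
  rw [ha, Nat.add_sub_cancel, Nat.choose_succ_succ a (k + 1)]
  have h1 : (D - 1).choose (k + 2) ≤ a.choose (k + 2) := Nat.choose_le_choose _ (by omega)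
  have h2 : a.choose k ≤ a.choose (k + 1) := by
    apply Nat.choose_le_succ_of_lt_half_left
    omega
  have h1' : ((D - 1).choose (k + 2) : ℝ) ≤ (a.choose (k + 2) : ℝ) := by exact_mod_cast h1
  have h2' : (a.choose k : ℝ) ≤ (a.choose (k + 1) : ℝ) := by exact_mod_cast h2
  have e6 : k + 1 + 1 = k + 2 := rfl
  push_cast
  linarith

end Pool.Agent.Helper93.KLA
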