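import Pool.Agent.Helper93.MLSa

/-!
# The multiplicative large sieve inequality

`mls`: `∑_{q ≤ Q} ∑_{χ mod q primitive} ‖∑_{M < n ≤ M+N} a n χ n‖² ≤ (Q² + π N) ∑ ‖a n‖²` (with the weight `q / φ(q)`: `mls_weight`),
and its bilinear form `mls_bilinear`.
-/

open MeasureTheory Set Filter

set_option autoImplicit false

namespace Pool.Agent.Helper93.MLS

/-- reduced residues `1 ≤ a ≤ q` -/
def red (q : ℕ) : Finset ℕ := (Finset.Icc 1 q).filter (fun a => Nat.Coprime a q)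

lemma farey_sep {q q' a a' Q : ℕ} (hq : 1 ≤ q) (hq' : 1 ≤ q') (hqQ : q ≤ Q) (hqQ' : q' ≤ Q)
    (ha : Nat.Coprime a q) (ha' : Nat.Coprime a' q') (hne : ¬ (q = q' ∧ a = a')) :
    ((Q : ℝ) ^ 2)⁻¹ ≤ |(a : ℝ) / q - a' / q'| := by
  have hq0 : (0 : ℝ) < q := by exact_mod_cast hq
  have hq0' : (0 : ℝ) < q' := by exact_mod_cast hq'
  have hne' : (a : ℤ) * q' - a' * q ≠ 0 := by
    intro h
    have h1 : a * q' = a' * q := by
      have : (a : ℤ) * q' = a' * q := by linarith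
      exact_mod_cast this
    have h2 : q ∣ q' := by
      have : q ∣ a * q' := h1 ▸ Dvd.intro_left _ rfl
      exact (Nat.Coprime.symm ha).dvd_of_dvd_mul_left this
    have h3 : q' ∣ q := by
      have : q' ∣ a' * q := h1 ▸ Dvd.intro_left _ rfl
      exact (Nat.Coprime.symm ha').dvd_of_dvd_mul_left this
    have h4 : q = q' := Nat.dvd_antisymm h2 h3
    refine hne ⟨h4, ?_⟩
    rw [h4] at h1
    exact Nat.eq_of_mul_eq_mul_right (by omega) h1
  have h1 : (1 : ℝ) ≤ |((a : ℝ) * q' - a' * q)| := by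
    have : (1 : ℤ) ≤ |(a : ℤ) * q' - a' * q| := Int.one_le_abs hne'
    have h2 : ((1 : ℤ) : ℝ) ≤ ((|(a : ℤ) * q' - a' * q| : ℤ) : ℝ) := by exact_mod_cast this
    push_cast at h2
    exact h2
  have h2 : (a : ℝ) / q - a' / q' = ((a : ℝ) * q' - a' * q) / (q * q') := by
    field_simp
  rw [h2, abs_div, abs_of_pos (by positivity : (0 : ℝ) < q * q'), ← one_div]
  have h3 : (q : ℝ) * q' ≤ (Q : ℝ) ^ 2 := by
    have h4 : (q : ℝ) ≤ Q := by exact_mod_cast hqQ
    have h5 : (q' : ℝ) ≤ Q := by exact_mod_cast hqQ'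
    nlinarith
  exact div_le_div₀ (by positivity) h1 (by positivity) h3

/-- the additive large sieve over the Farey fractions -/
theorem farey_ls (Q M N : ℕ) (a : ℕ → ℂ) :
    ∑ q ∈ Finset.Icc 1 Q, ∑ x ∈ red q, ‖∑ n ∈ Finset.Ioc M (M + N), a n * ee (n * (x / q))‖ ^ 2 ≤
      ((Q : ℝ) ^ 2 + Real.pi * N) * ∑ n ∈ Finset.Ioc M (M + N), ‖a n‖ ^ 2 := by
  rcases Nat.eq_zero_or_pos Q with hQ | hQ
  · rw [hQ]
    simp only [Finset.Icc_eq_empty (by norm_num : ¬ (1 : ℕ) ≤ 0), Finset.sum_empty]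
    have : (0 : ℝ) ≤ ∑ n ∈ Finset.Ioc M (M + N), ‖a n‖ ^ 2 := Finset.sum_nonneg fun _ _ => by positivity
    have hpi := Real.pi_pos
    positivity
  · have hQ0 : (0 : ℝ) < Q := by exact_mod_cast hQ
    have hQ1 : (1 : ℝ) ≤ Q := by exact_mod_cast hQ
    rw [Finset.sum_sigma']
    have h := additive_ls ((Finset.Icc 1 Q).sigma fun q => red q) (fun p => (p.2 : ℝ) / p.1)
      (δ := ((Q : ℝ) ^ 2)⁻¹) (x0 := ((Q : ℝ) ^ 2)⁻¹ / 2) (by positivity) ?_ ?_ M N a
    · rw [inv_inv] at h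
      exact h
    · rintro ⟨q, x⟩ hx ⟨q', x'⟩ hx' hne
      simp only [Finset.mem_sigma, red, Finset.mem_filter, Finset.mem_Icc] at hx hx'
      refine farey_sep hx.1.1 hx'.1.1 hx.1.2 hx'.1.2 hx.2.2 hx'.2.2 ?_
      rintro ⟨h1, h2⟩
      apply hne
      subst h1 h2
      rfl
    · rintro ⟨q, x⟩ hx
      simp only [Finset.mem_sigma, red, Finset.mem_filter, Finset.mem_Icc] at hx
      have hq0 : (0 : ℝ) < q := by exact_mod_cast hx.1.1
      have h1 : (1 : ℝ) ≤ x := by exact_mod_cast hx.2.1.1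
      have h2 : (x : ℝ) ≤ q := by exact_mod_cast hx.2.1.2
      have h3 : (q : ℝ) ≤ Q := by exact_mod_cast hx.1.2
      have h4 : (Q : ℝ)⁻¹ ≤ (x : ℝ) / q := by
        rw [inv_eq_one_div]
        exact div_le_div₀ (by positivity) h1 hq0 h3
      have h5 : (x : ℝ) / q ≤ 1 := (div_le_one hq0).2 h2
      have h6 : ((Q : ℝ) ^ 2)⁻¹ ≤ (Q : ℝ)⁻¹ := by
        apply inv_anti₀ hQ0
        nlinarith
      constructor
      · show ((Q : ℝ) ^ 2)⁻¹ / 2 + ((Q : ℝ) ^ 2)⁻¹ / 2 ≤ (x : ℝ) / q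
        linarith
      · show (x : ℝ) / q ≤ ((Q : ℝ) ^ 2)⁻¹ / 2 + 1 - ((Q : ℝ) ^ 2)⁻¹ / 2
        linarith

section char

variable {q : ℕ} [NeZero q]

omit [NeZero q] in
lemma inv_prim {χ : DirichletCharacter ℂ q} (h : χ.IsPrimitive) : (χ⁻¹).IsPrimitive := by
  have key : ∀ d, χ.FactorsThrough d ↔ (χ⁻¹).FactorsThrough d := by
    intro d
    constructor
    · rintro ⟨hd, χ₀, hχ⟩
      exact ⟨hd, χ₀⁻¹, by rw [hχ, map_inv]⟩
    · rintro ⟨hd, χ₀, hχ⟩
      exact ⟨hd, χ₀⁻¹, by rw [map_inv, ← hχ, inv_inv]⟩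
  have : (χ⁻¹).conductor = χ.conductor := by
    unfold DirichletCharacter.conductor
    congr 1
    ext d
    exact (key d).symm
  rw [DirichletCharacter.isPrimitive_def, this]
  exact h

lemma norm_char_sum (χ : DirichletCharacter ℂ q) : ∑ x : ZMod q, ‖χ x‖ ^ 2 = q.totient := by
  have h1 : ∀ x : ZMod q, ‖χ x‖ ^ 2 = if IsUnit x then 1 else 0 := by
    intro x
    by_cases hx : IsUnit x
    · rw [if_pos hx]
      have := DirichletCharacter.unit_norm_eq_one χ hx.unit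
      rw [IsUnit.unit_spec] at this
      rw [this, one_pow]
    · rw [if_neg hx, MulChar.map_nonunit _ hx]
      simp
  simp only [h1]
  rw [Finset.sum_boole]
  have h2 : (Finset.univ.filter (fun x : ZMod q => IsUnit x)).card = q.totient := by
    rw [← ZMod.card_units_eq_totient q, ← Finset.card_univ]
    symm
    refine Finset.card_bij (fun u _ => (u : ZMod q)) (fun u _ => ?_) (fun u _ v _ h => Units.ext h) fun b hb => ?_
    · simp
    · rw [Finset.mem_filter] at hb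
      exact ⟨hb.2.unit, Finset.mem_univ _, IsUnit.unit_spec _⟩
  rw [h2]

/-- Parseval on `ZMod q` -/
lemma zmod_parseval (f : ZMod q → ℂ) :
    ∑ a : ZMod q, ‖∑ x : ZMod q, f x * ZMod.stdAddChar (a * x)‖ ^ 2 = q * ∑ x : ZMod q, ‖f x‖ ^ 2 := by
  have h1 : ∀ a : ZMod q, ((‖∑ x : ZMod q, f x * ZMod.stdAddChar (a * x)‖ ^ 2 : ℝ) : ℂ) =
      ∑ x : ZMod q, ∑ y : ZMod q, f x * (starRingEnd ℂ) (f y) * ZMod.stdAddChar (a * (x - y)) := by
    intro a
    have h2 : ((‖∑ x : ZMod q, f x * ZMod.stdAddChar (a * x)‖ ^ 2 : ℝ) : ℂ) =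
        (∑ x : ZMod q, f x * ZMod.stdAddChar (a * x)) * (starRingEnd ℂ) (∑ x : ZMod q, f x * ZMod.stdAddChar (a * x)) := by
      rw [Complex.mul_conj, Complex.normSq_eq_norm_sq]
    rw [h2, map_sum, Finset.sum_mul_sum]
    refine Finset.sum_congr rfl fun x _ => Finset.sum_congr rfl fun y _ => ?_
    have h3 : (starRingEnd ℂ) (ZMod.stdAddChar (a * y)) = (ZMod.stdAddChar (a * y) : ℂ)⁻¹ := by
      rw [ZMod.stdAddChar_apply, ← Circle.coe_inv_eq_conj, Circle.coe_inv]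
    rw [map_mul (starRingEnd ℂ), h3, mul_sub, AddChar.map_sub_eq_div, div_eq_mul_inv]
    ring
  have h4 : ((∑ a : ZMod q, ‖∑ x : ZMod q, f x * ZMod.stdAddChar (a * x)‖ ^ 2 : ℝ) : ℂ) =
      ((q * ∑ x : ZMod q, ‖f x‖ ^ 2 : ℝ) : ℂ) := by
    rw [Complex.ofReal_sum]
    simp only [h1]
    rw [Finset.sum_comm]
    have h5 : ∀ x : ZMod q, ∑ a : ZMod q, ∑ y : ZMod q, f x * (starRingEnd ℂ) (f y) * ZMod.stdAddChar (a * (x - y)) =
        q * (‖f x‖ ^ 2 : ℝ) := by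
      intro x
      rw [Finset.sum_comm]
      have h6 : ∀ y : ZMod q, ∑ a : ZMod q, f x * (starRingEnd ℂ) (f y) * ZMod.stdAddChar (a * (x - y)) =
          if y = x then f x * (starRingEnd ℂ) (f x) * q else 0 := by
        intro y
        rw [← Finset.mul_sum]
        have h7 : ∑ a : ZMod q, (ZMod.stdAddChar (a * (x - y)) : ℂ) = if x - y = 0 then ((Fintype.card (ZMod q) : ℕ) : ℂ) else 0 := by
          have := AddChar.sum_mulShift (R := ZMod q) (R' := ℂ) (x - y) (ZMod.isPrimitive_stdAddChar q)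
          exact_mod_cast this
        rw [h7]
        by_cases hxy : y = x
        · rw [if_pos hxy, hxy, sub_self, if_pos rfl, ZMod.card]
        · rw [if_neg hxy, if_neg (fun h => hxy (sub_eq_zero.1 h).symm), mul_zero]
      simp only [h6]
      rw [Finset.sum_ite_eq' Finset.univ x, if_pos (Finset.mem_univ _), Complex.mul_conj, Complex.normSq_eq_norm_sq]
      ring
    simp only [h5]
    push_cast
    rw [Finset.mul_sum]
  exact_mod_cast h4

/-- the absolute value of the Gauss sum of a primitive character -/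
lemma gauss_prim {χ : DirichletCharacter ℂ q} (h : χ.IsPrimitive) : ‖gaussSum χ ZMod.stdAddChar‖ ^ 2 = q := by
  have h1 : ∀ a : ZMod q, ∑ x : ZMod q, χ x * ZMod.stdAddChar (a * x) = χ⁻¹ a * gaussSum χ ZMod.stdAddChar := by
    intro a
    rw [← gaussSum_mulShift_of_isPrimitive _ h]
    rfl
  have h2 := zmod_parseval (q := q) (fun x => χ x)
  simp only [h1, norm_mul, mul_pow] at h2
  rw [← Finset.sum_mul, norm_char_sum, norm_char_sum] at h2
  have h3 : (0 : ℝ) < (q.totient : ℝ) := by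
    exact_mod_cast Nat.totient_pos.2 (Nat.pos_of_ne_zero (NeZero.ne q))
  have h4 : (q.totient : ℝ) * ‖gaussSum χ ZMod.stdAddChar‖ ^ 2 = q.totient * q := by rw [h2]; ring
  exact mul_left_cancel₀ h3.ne' h4

/-- orthogonality -/
lemma char_orth (f : ZMod q → ℂ) :
    ∑ χ : DirichletCharacter ℂ q, ‖∑ x : ZMod q, χ⁻¹ x * f x‖ ^ 2 =
      q.totient * ∑ x : ZMod q, if IsUnit x then ‖f x‖ ^ 2 else 0 := by
  have h1 : ∀ χ : DirichletCharacter ℂ q, ((‖∑ x : ZMod q, χ⁻¹ x * f x‖ ^ 2 : ℝ) : ℂ) =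
      ∑ x : ZMod q, ∑ y : ZMod q, (χ⁻¹ x * χ y) * (f x * (starRingEnd ℂ) (f y)) := by
    intro χ
    have h2 : ((‖∑ x : ZMod q, χ⁻¹ x * f x‖ ^ 2 : ℝ) : ℂ) =
        (∑ x : ZMod q, χ⁻¹ x * f x) * (starRingEnd ℂ) (∑ x : ZMod q, χ⁻¹ x * f x) := by
      rw [Complex.mul_conj, Complex.normSq_eq_norm_sq]
    rw [h2, map_sum, Finset.sum_mul_sum]
    refine Finset.sum_congr rfl fun x _ => Finset.sum_congr rfl fun y _ => ?_
    rw [map_mul]
    have h3 : (starRingEnd ℂ) (χ⁻¹ y) = χ y := by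
      have h5 : star χ = χ⁻¹ := MulChar.star_eq_inv χ
      rw [← h5, MulChar.star_apply]
      exact star_star (χ y)
    rw [h3]
    ring
  have h4 : ((∑ χ : DirichletCharacter ℂ q, ‖∑ x : ZMod q, χ⁻¹ x * f x‖ ^ 2 : ℝ) : ℂ) =
      ((q.totient * ∑ x : ZMod q, if IsUnit x then ‖f x‖ ^ 2 else 0 : ℝ) : ℂ) := by
    rw [Complex.ofReal_sum]
    simp only [h1]
    rw [Finset.sum_comm]
    push_cast
    rw [Finset.mul_sum]
    refine Finset.sum_congr rfl fun x _ => ?_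
    rw [Finset.sum_comm]
    by_cases hx : IsUnit x
    · rw [if_pos hx]
      have h5 : ∀ y : ZMod q, ∑ χ : DirichletCharacter ℂ q, (χ⁻¹ x * χ y) * (f x * (starRingEnd ℂ) (f y)) =
          if x = y then (q.totient : ℂ) * (f x * (starRingEnd ℂ) (f y)) else 0 := by
        intro y
        rw [← Finset.sum_mul]
        have h6 := DirichletCharacter.sum_char_inv_mul_char_eq (R := ℂ) hx y
        have h7 : ∀ χ : DirichletCharacter ℂ q, χ⁻¹ x = χ x⁻¹ := by
          intro χ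
          rw [MulChar.inv_apply, ← hx.unit_spec, Ring.inverse_unit, ZMod.inv_coe_unit]
        simp only [h7]
        rw [h6]
        split_ifs <;> simp
      simp only [h5]
      rw [Finset.sum_ite_eq Finset.univ x, if_pos (Finset.mem_univ _), Complex.mul_conj, Complex.normSq_eq_norm_sq]
    · rw [if_neg hx, Complex.ofReal_zero, mul_zero]
      refine Finset.sum_eq_zero fun y _ => Finset.sum_eq_zero fun χ _ => ?_
      rw [MulChar.map_nonunit _ hx]
      ring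
  exact_mod_cast h4

lemma std_ee (n x : ℕ) : ZMod.stdAddChar ((n : ZMod q) * (x : ZMod q)) = ee (n * (x / q)) := by
  have h1 : (n : ZMod q) * (x : ZMod q) = (((n * x : ℕ) : ℤ) : ZMod q) := by
    push_cast
    rfl
  rw [h1, ZMod.stdAddChar_coe]
  unfold ee
  congr 1
  push_cast
  ring

/-- units of `ZMod q` and reduced residues -/
lemma sum_units (F : ZMod q → ℝ) : (∑ x : ZMod q, if IsUnit x then F x else 0) = ∑ x ∈ red q, F (x : ZMod q) := by
  rw [← Finset.sum_filter]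
  symm
  have hq0 : 0 < q := Nat.pos_of_ne_zero (NeZero.ne q)
  refine Finset.sum_bij (fun x _ => (x : ZMod q)) (fun x hx => ?_) (fun x hx y hy h => ?_) (fun b hb => ?_) fun _ _ => rfl
  · rw [Finset.mem_filter]
    refine ⟨Finset.mem_univ _, ?_⟩
    rw [red, Finset.mem_filter] at hx
    exact (ZMod.isUnit_iff_coprime x q).2 hx.2
  · simp only [red, Finset.mem_filter, Finset.mem_Icc] at hx hy
    have h1 : ((x : ℤ) : ZMod q) = ((y : ℤ) : ZMod q) := by exact_mod_cast h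
    rw [ZMod.intCast_eq_intCast_iff_dvd_sub] at h1
    have h2 : (y : ℤ) - x = 0 := by
      refine Int.eq_zero_of_abs_lt_dvd h1 ?_
      rw [abs_lt]
      constructor <;> omega
    omega
  · rw [Finset.mem_filter] at hb
    by_cases h0 : b.val = 0
    · have hb0 : b = 0 := (ZMod.val_eq_zero b).1 h0
      have h1 : IsUnit (0 : ZMod q) := hb0 ▸ hb.2
      have h2 : IsUnit (((0 : ℕ) : ZMod q)) := by simpa using h1
      rw [ZMod.isUnit_iff_coprime, Nat.coprime_zero_left] at h2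
      refine ⟨1, ?_, ?_⟩
      · rw [red, Finset.mem_filter, Finset.mem_Icc]
        exact ⟨⟨le_rfl, hq0⟩, Nat.coprime_one_left q⟩
      · subst h2
        exact Subsingleton.elim _ _
    · refine ⟨b.val, ?_, ZMod.natCast_zmod_val b⟩
      rw [red, Finset.mem_filter, Finset.mem_Icc]
      refine ⟨⟨Nat.one_le_iff_ne_zero.2 h0, (ZMod.val_lt b).le⟩, ?_⟩
      rw [← ZMod.isUnit_iff_coprime, ZMod.natCast_zmod_val]
      exact hb.2

open Classical in
/-- one modulus -/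
theorem one_modulus (s : Finset ℕ) (a : ℕ → ℂ) :
    (q : ℝ) * ∑ χ ∈ (Finset.univ : Finset (DirichletCharacter ℂ q)).filter (fun χ => χ.IsPrimitive),
      ‖∑ n ∈ s, a n * χ n‖ ^ 2 ≤
    q.totient * ∑ x ∈ red q, ‖∑ n ∈ s, a n * ee (n * (x / q))‖ ^ 2 := by
  set S : ZMod q → ℂ := fun x => ∑ n ∈ s, a n * ZMod.stdAddChar ((n : ZMod q) * x) with hS
  have h1 : ∀ χ : DirichletCharacter ℂ q, χ.IsPrimitive →
      (q : ℝ) * ‖∑ n ∈ s, a n * χ n‖ ^ 2 = ‖∑ x : ZMod q, χ⁻¹ x * S x‖ ^ 2 := by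
    intro χ hχ
    have hχ' := inv_prim hχ
    have h2 : ∑ x : ZMod q, χ⁻¹ x * S x = (∑ n ∈ s, a n * χ n) * gaussSum χ⁻¹ ZMod.stdAddChar := by
      simp only [hS, Finset.mul_sum]
      rw [Finset.sum_comm, Finset.sum_mul]
      refine Finset.sum_congr rfl fun n _ => ?_
      have h3 := gaussSum_mulShift_of_isPrimitive (ZMod.stdAddChar (N := q)) hχ' (n : ZMod q)
      rw [inv_inv] at h3
      rw [mul_assoc, ← h3]
      unfold gaussSum
      rw [Finset.mul_sum]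
      refine Finset.sum_congr rfl fun x _ => ?_
      rw [AddChar.mulShift_apply]
      ring
    rw [h2, norm_mul, mul_pow, gauss_prim hχ']
    ring
  have h2 : ∀ x ∈ red q, ‖S (x : ZMod q)‖ ^ 2 = ‖∑ n ∈ s, a n * ee (n * (x / q))‖ ^ 2 := by
    intro x _
    simp only [hS, std_ee]
  rw [← Finset.sum_congr rfl h2, ← sum_units (fun x => ‖S x‖ ^ 2), ← char_orth S, Finset.mul_sum]
  refine le_trans (Finset.sum_le_sum fun χ hχ => (h1 χ (Finset.mem_filter.1 hχ).2).le) ?_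
  exact Finset.sum_le_sum_of_subset_of_nonneg (Finset.filter_subset _ _) fun _ _ _ => by positivity

end char

open Classical in
/-- the multiplicative large sieve with weights -/
theorem mls_weight (Q M N : ℕ) (a : ℕ → ℂ) :
    ∑ q ∈ Finset.Icc 1 Q, (q : ℝ) / q.totient *
      ∑ χ ∈ (Finset.univ : Finset (DirichletCharacter ℂ q)).filter (fun χ => χ.IsPrimitive),
        ‖∑ n ∈ Finset.Ioc M (M + N), a n * χ n‖ ^ 2 ≤
    ((Q : ℝ) ^ 2 + Real.pi * N) * ∑ n ∈ Finset.Ioc M (M + N), ‖a n‖ ^ 2 := by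
  refine le_trans (Finset.sum_le_sum fun q hq => ?_) (farey_ls Q M N a)
  rw [Finset.mem_Icc] at hq
  haveI : NeZero q := ⟨by omega⟩
  have ht : (0 : ℝ) < q.totient := by exact_mod_cast Nat.totient_pos.2 (by omega)
  have h := one_modulus (q := q) (Finset.Ioc M (M + N)) a
  rw [div_mul_eq_mul_div, div_le_iff₀ ht]
  linarith

open Classical in
/-- the multiplicative large sieve -/
theorem mls (Q M N : ℕ) (a : ℕ → ℂ) :
    ∑ q ∈ Finset.Icc 1 Q, ∑ χ ∈ (Finset.univ : Finset (DirichletCharacter ℂ q)).filter (fun χ => χ.IsPrimitive),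
        ‖∑ n ∈ Finset.Ioc M (M + N), a n * χ n‖ ^ 2 ≤
    ((Q : ℝ) ^ 2 + Real.pi * N) * ∑ n ∈ Finset.Ioc M (M + N), ‖a n‖ ^ 2 := by
  refine le_trans (Finset.sum_le_sum fun q hq => ?_) (mls_weight Q M N a)
  rw [Finset.mem_Icc] at hq
  have ht : (0 : ℝ) < q.totient := by exact_mod_cast Nat.totient_pos.2 (by omega)
  have h1 : (1 : ℝ) ≤ (q : ℝ) / q.totient := by
    rw [one_le_div ht]
    exact_mod_cast Nat.totient_le q
  have h2 : (0 : ℝ) ≤ ∑ χ ∈ (Finset.univ : Finset (DirichletCharacter ℂ q)).filter (fun χ => χ.IsPrimitive),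
        ‖∑ n ∈ Finset.Ioc M (M + N), a n * χ n‖ ^ 2 := Finset.sum_nonneg fun _ _ => by positivity
  nlinarith

open Classical in
/-- the bilinear form of the multiplicative large sieve -/
theorem mls_bilinear (Q M N M' N' : ℕ) (a b : ℕ → ℂ) :
    ∑ q ∈ Finset.Icc 1 Q, ∑ χ ∈ (Finset.univ : Finset (DirichletCharacter ℂ q)).filter (fun χ => χ.IsPrimitive),
        ‖(∑ n ∈ Finset.Ioc M (M + N), a n * χ n) * (∑ n ∈ Finset.Ioc M' (M' + N'), b n * χ n)‖ ≤
    4 * Real.sqrt (((Q : ℝ) ^ 2 + N) * ((Q : ℝ) ^ 2 + N')) *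
      (Real.sqrt (∑ n ∈ Finset.Ioc M (M + N), ‖a n‖ ^ 2) * Real.sqrt (∑ n ∈ Finset.Ioc M' (M' + N'), ‖b n‖ ^ 2)) := by
  have hA0 : (0 : ℝ) ≤ ∑ n ∈ Finset.Ioc M (M + N), ‖a n‖ ^ 2 := Finset.sum_nonneg fun _ _ => by positivity
  have hB0 : (0 : ℝ) ≤ ∑ n ∈ Finset.Ioc M' (M' + N'), ‖b n‖ ^ 2 := Finset.sum_nonneg fun _ _ => by positivity
  have hpi := Real.pi_pos
  have hpi4 := Real.pi_le_four
  rw [Finset.sum_sigma']
  have h1 : ∑ p ∈ (Finset.Icc 1 Q).sigma fun q =>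
      (Finset.univ : Finset (DirichletCharacter ℂ q)).filter (fun χ => χ.IsPrimitive),
        ‖(∑ n ∈ Finset.Ioc M (M + N), a n * p.2 n) * (∑ n ∈ Finset.Ioc M' (M' + N'), b n * p.2 n)‖ ≤
      Real.sqrt (∑ p ∈ (Finset.Icc 1 Q).sigma fun q =>
      (Finset.univ : Finset (DirichletCharacter ℂ q)).filter (fun χ => χ.IsPrimitive),
        ‖∑ n ∈ Finset.Ioc M (M + N), a n * p.2 n‖ ^ 2) *
      Real.sqrt (∑ p ∈ (Finset.Icc 1 Q).sigma fun q =>
      (Finset.univ : Finset (DirichletCharacter ℂ q)).filter (fun χ => χ.IsPrimitive),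
        ‖∑ n ∈ Finset.Ioc M' (M' + N'), b n * p.2 n‖ ^ 2) := by
    rw [← Real.sqrt_mul (Finset.sum_nonneg fun _ _ => by positivity)]
    refine Real.le_sqrt_of_sq_le ?_
    simp only [norm_mul]
    exact Finset.sum_mul_sq_le_sq_mul_sq _ _ _
  refine h1.trans ?_
  rw [← Finset.sum_sigma' (Finset.Icc 1 Q)
      (fun q => (Finset.univ : Finset (DirichletCharacter ℂ q)).filter (fun χ => χ.IsPrimitive))
      (fun q χ => ‖∑ n ∈ Finset.Ioc M (M + N), a n * χ n‖ ^ 2),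
    ← Finset.sum_sigma' (Finset.Icc 1 Q)
      (fun q => (Finset.univ : Finset (DirichletCharacter ℂ q)).filter (fun χ => χ.IsPrimitive))
      (fun q χ => ‖∑ n ∈ Finset.Ioc M' (M' + N'), b n * χ n‖ ^ 2)]
  have h2 := mls Q M N a
  have h3 := mls Q M' N' b
  have h4 : ((Q : ℝ) ^ 2 + Real.pi * N) ≤ 4 * ((Q : ℝ) ^ 2 + N) := by
    have : (0 : ℝ) ≤ N := Nat.cast_nonneg N
    nlinarith [sq_nonneg (Q : ℝ)]
  have h5 : ((Q : ℝ) ^ 2 + Real.pi * N') ≤ 4 * ((Q : ℝ) ^ 2 + N') := by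
    have : (0 : ℝ) ≤ N' := Nat.cast_nonneg N'
    nlinarith [sq_nonneg (Q : ℝ)]
  have h6 := Real.sqrt_le_sqrt (h2.trans (mul_le_mul_of_nonneg_right h4 hA0))
  have h7 := Real.sqrt_le_sqrt (h3.trans (mul_le_mul_of_nonneg_right h5 hB0))
  refine (mul_le_mul h6 h7 (Real.sqrt_nonneg _) (Real.sqrt_nonneg _)).trans (le_of_eq ?_)
  have hN0 : (0 : ℝ) ≤ N := Nat.cast_nonneg N
  have hN0' : (0 : ℝ) ≤ N' := Nat.cast_nonneg N'
  have e0 : Real.sqrt 4 = 2 := by
    rw [show (4 : ℝ) = 2 ^ 2 by norm_num]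
    exact Real.sqrt_sq (by norm_num)
  rw [Real.sqrt_mul (by positivity), Real.sqrt_mul (by positivity), Real.sqrt_mul (by positivity), Real.sqrt_mul (by positivity),
    Real.sqrt_mul (by positivity), e0]
  ring

end Pool.Agent.Helper93.MLS
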