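import Mathlib

/-!
# The additive large sieve (Gallagher's proof)

`additive_ls`: for `δ`-separated points `α i` in an interval of length one,
`∑ ‖∑_{M < n ≤ M+N} a n e(n α i)‖² ≤ (δ⁻¹ + π N) ∑ ‖a n‖²`.
-/

open MeasureTheory Set Filter

set_option autoImplicit false

namespace Pool.Agent.Helper93.MLS

/-- `e(x) = exp(2 π i x)` -/
noncomputable def ee (x : ℝ) : ℂ := Complex.exp (((2 * Real.pi * x : ℝ) : ℂ) * Complex.I)

lemma ee_norm (x : ℝ) : ‖ee x‖ = 1 := Complex.norm_exp_ofReal_mul_I _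

lemma ee_add (x y : ℝ) : ee (x + y) = ee x * ee y := by
  unfold ee
  rw [← Complex.exp_add]
  congr 1
  push_cast
  ring

lemma ee_neg (x : ℝ) : ee (-x) = (starRingEnd ℂ) (ee x) := by
  unfold ee
  rw [← Complex.exp_conj, map_mul, Complex.conj_I, Complex.conj_ofReal]
  congr 1
  push_cast
  ring

lemma ee_int (k : ℤ) : ee (k : ℝ) = 1 := by
  unfold ee
  rw [Complex.exp_eq_one_iff]
  exact ⟨k, by push_cast; ring⟩

lemma ee_cont : Continuous ee := by
  unfold ee
  fun_prop

/-- Gallagher's inequality -/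
lemma gallagher {f f' : ℝ → ℝ} (hf : ∀ x, HasDerivAt f (f' x) x) (hc : Continuous f') (α : ℝ) {δ : ℝ} (hδ : 0 < δ) :
    f α ≤ δ⁻¹ * (∫ x in (α - δ / 2)..(α + δ / 2), f x) + 1 / 2 * ∫ x in (α - δ / 2)..(α + δ / 2), |f' x| := by
  have hfc : Continuous f := continuous_iff_continuousAt.2 fun x => (hf x).continuousAt
  have i1 := intervalIntegral.integral_mul_deriv_eq_deriv_mul (a := α - δ / 2) (b := α)
    (u := fun x => x - (α - δ / 2)) (v := f) (u' := fun _ => 1) (v' := f')
    (fun x _ => (hasDerivAt_id x).sub_const _) (fun x _ => hf x)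
    (continuous_const.intervalIntegrable _ _) (hc.intervalIntegrable _ _)
  have i2 := intervalIntegral.integral_mul_deriv_eq_deriv_mul (a := α) (b := α + δ / 2)
    (u := fun x => x - (α + δ / 2)) (v := f) (u' := fun _ => 1) (v' := f')
    (fun x _ => (hasDerivAt_id x).sub_const _) (fun x _ => hf x)
    (continuous_const.intervalIntegrable _ _) (hc.intervalIntegrable _ _)
  simp only [one_mul] at i1 i2
  have s1 : (∫ x in (α - δ / 2)..(α + δ / 2), f x) = (∫ x in (α - δ / 2)..α, f x) + ∫ x in α..(α + δ / 2), f x :=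
    (intervalIntegral.integral_add_adjacent_intervals (hfc.intervalIntegrable _ _) (hfc.intervalIntegrable _ _)).symm
  have s2 : (∫ x in (α - δ / 2)..(α + δ / 2), |f' x|) =
      (∫ x in (α - δ / 2)..α, |f' x|) + ∫ x in α..(α + δ / 2), |f' x| :=
    (intervalIntegral.integral_add_adjacent_intervals (hc.abs.intervalIntegrable _ _)
      (hc.abs.intervalIntegrable _ _)).symm
  have b1 : ∫ x in (α - δ / 2)..α, (x - (α - δ / 2)) * f' x ≤ ∫ x in (α - δ / 2)..α, δ / 2 * |f' x| := by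
    refine intervalIntegral.integral_mono_on (by linarith) (Continuous.intervalIntegrable (by fun_prop) _ _)
      (Continuous.intervalIntegrable (by fun_prop) _ _) fun x hx => ?_
    refine (le_abs_self _).trans ?_
    rw [abs_mul]
    refine mul_le_mul_of_nonneg_right ?_ (abs_nonneg _)
    rw [abs_le]
    constructor <;> linarith [hx.1, hx.2]
  have b2 : ∫ x in α..(α + δ / 2), (x - (α + δ / 2)) * f' x ≤ ∫ x in α..(α + δ / 2), δ / 2 * |f' x| := by
    refine intervalIntegral.integral_mono_on (by linarith) (Continuous.intervalIntegrable (by fun_prop) _ _)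
      (Continuous.intervalIntegrable (by fun_prop) _ _) fun x hx => ?_
    refine (le_abs_self _).trans ?_
    rw [abs_mul]
    refine mul_le_mul_of_nonneg_right ?_ (abs_nonneg _)
    rw [abs_le]
    constructor <;> linarith [hx.1, hx.2]
  rw [intervalIntegral.integral_const_mul] at b1 b2
  have key : δ * f α ≤ (∫ x in (α - δ / 2)..(α + δ / 2), f x) + δ / 2 * ∫ x in (α - δ / 2)..(α + δ / 2), |f' x| := by
    rw [s1, s2]
    have e1 : α - (α - δ / 2) = δ / 2 := by ring
    have e2 : α - (α + δ / 2) = -(δ / 2) := by ring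
    rw [e1, sub_self, zero_mul, sub_zero] at i1
    rw [e2, sub_self, zero_mul] at i2
    nlinarith
  have : f α = δ⁻¹ * (δ * f α) := by field_simp
  rw [this]
  have h2 := mul_le_mul_of_nonneg_left key (inv_pos.2 hδ).le
  have h3 : δ⁻¹ * ((∫ x in (α - δ / 2)..(α + δ / 2), f x) + δ / 2 * ∫ x in (α - δ / 2)..(α + δ / 2), |f' x|) =
      δ⁻¹ * (∫ x in (α - δ / 2)..(α + δ / 2), f x) + 1 / 2 * ∫ x in (α - δ / 2)..(α + δ / 2), |f' x| := by
    field_simp
  linarith

lemma int_ee (k : ℤ) (x0 : ℝ) : ∫ x in x0..(x0 + 1), ee (k * x) = if k = 0 then 1 else 0 := by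
  by_cases hk : k = 0
  · simp [hk, ee]
  · rw [if_neg hk]
    have hc : (2 * Real.pi * (k : ℂ) * Complex.I) ≠ 0 := by
      simp [hk, Real.pi_ne_zero, Complex.I_ne_zero]
    have e1 : ∀ x : ℝ, ee (k * x) = Complex.exp ((2 * Real.pi * (k : ℂ) * Complex.I) * x) := by
      intro x
      unfold ee
      congr 1
      push_cast
      ring
    simp only [e1]
    rw [integral_exp_mul_complex hc]
    have e2 : Complex.exp ((2 * Real.pi * (k : ℂ) * Complex.I) * ((x0 + 1 : ℝ) : ℂ)) =
        Complex.exp ((2 * Real.pi * (k : ℂ) * Complex.I) * (x0 : ℂ)) := by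
      have : (2 * Real.pi * (k : ℂ) * Complex.I) * ((x0 + 1 : ℝ) : ℂ) =
          (2 * Real.pi * (k : ℂ) * Complex.I) * (x0 : ℂ) + (k : ℂ) * (2 * Real.pi * Complex.I) := by
        push_cast
        ring
      rw [this, Complex.exp_add, Complex.exp_int_mul_two_pi_mul_I, mul_one]
    rw [e2, sub_self, zero_div]

/-- the trigonometric polynomial with shifted frequencies -/
noncomputable def SS (s : Finset ℕ) (b : ℕ → ℂ) (c x : ℝ) : ℂ := ∑ n ∈ s, b n * ee ((n - c) * x)

lemma SS_cont (s : Finset ℕ) (b : ℕ → ℂ) (c : ℝ) : Continuous (SS s b c) := by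
  unfold SS
  refine continuous_finsetSum _ fun n _ => continuous_const.mul (ee_cont.comp (by fun_prop))

lemma SS_norm (s : Finset ℕ) (b : ℕ → ℂ) (c x : ℝ) : ‖SS s b c x‖ = ‖SS s b 0 x‖ := by
  have h : SS s b c x = ee (-(c * x)) * SS s b 0 x := by
    unfold SS
    rw [Finset.mul_sum]
    refine Finset.sum_congr rfl fun n _ => ?_
    have : ((n : ℝ) - c) * x = -(c * x) + ((n : ℝ) - 0) * x := by ring
    rw [this, ee_add]
    ring
  rw [h, norm_mul, ee_norm, one_mul]

lemma parseval (s : Finset ℕ) (b : ℕ → ℂ) (c x0 : ℝ) :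
    ∫ x in x0..(x0 + 1), ‖SS s b c x‖ ^ 2 = ∑ n ∈ s, ‖b n‖ ^ 2 := by
  have h1 : ∀ x : ℝ, ((‖SS s b c x‖ ^ 2 : ℝ) : ℂ) =
      ∑ n ∈ s, ∑ m ∈ s, b n * (starRingEnd ℂ) (b m) * ee (((n : ℤ) - (m : ℤ) : ℤ) * x) := by
    intro x
    have h2 : ((‖SS s b c x‖ ^ 2 : ℝ) : ℂ) = SS s b c x * (starRingEnd ℂ) (SS s b c x) := by
      rw [Complex.mul_conj, Complex.normSq_eq_norm_sq]
    rw [h2]
    unfold SS
    rw [map_sum, Finset.sum_mul_sum]
    refine Finset.sum_congr rfl fun n _ => Finset.sum_congr rfl fun m _ => ?_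
    rw [map_mul, ← ee_neg]
    have : (((n : ℤ) - (m : ℤ) : ℤ) : ℝ) * x = ((n : ℝ) - c) * x + -(((m : ℝ) - c) * x) := by
      push_cast
      ring
    rw [this, ee_add]
    ring
  have h3 : ((∫ x in x0..(x0 + 1), ‖SS s b c x‖ ^ 2 : ℝ) : ℂ) = ((∑ n ∈ s, ‖b n‖ ^ 2 : ℝ) : ℂ) := by
    rw [← intervalIntegral.integral_ofReal]
    simp only [h1]
    rw [intervalIntegral.integral_finsetSum]
    · rw [Complex.ofReal_sum]
      refine Finset.sum_congr rfl fun n hn => ?_
      rw [intervalIntegral.integral_finsetSum]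
      · simp only [intervalIntegral.integral_const_mul, int_ee]
        rw [Finset.sum_eq_single n]
        · rw [sub_self, if_pos rfl, mul_one, Complex.mul_conj, Complex.normSq_eq_norm_sq]
        · intro m _ hm
          rw [if_neg, mul_zero]
          intro h
          apply hm
          omega
        · exact fun h => absurd hn h
      · intro m _
        exact (continuous_const.mul (ee_cont.comp (by fun_prop))).intervalIntegrable _ _
    · intro n _
      refine Continuous.intervalIntegrable (continuous_finsetSum _ fun m _ => ?_) _ _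
      exact continuous_const.mul (ee_cont.comp (by fun_prop))
  exact_mod_cast h3

lemma SS_deriv (s : Finset ℕ) (b : ℕ → ℂ) (c x : ℝ) :
    HasDerivAt (SS s b c) (SS s (fun n => b n * (2 * Real.pi * (n - c) * Complex.I)) c x) x := by
  unfold SS
  apply HasDerivAt.fun_sum
  intro n _
  have h1 : HasDerivAt (fun x : ℝ => (2 * Real.pi * ((n - c) * x) : ℝ)) (2 * Real.pi * (n - c)) x := by
    have := ((hasDerivAt_id x).const_mul ((n : ℝ) - c)).const_mul (2 * Real.pi)
    simpa using this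
  have h2 := ((h1.ofReal_comp).mul_const Complex.I).cexp
  have h3 : HasDerivAt (fun x : ℝ => ee ((n - c) * x)) (ee ((n - c) * x) * (2 * Real.pi * (n - c) * Complex.I)) x := by
    unfold ee
    refine h2.congr_deriv ?_
    push_cast
    ring
  refine (h3.const_mul (b n)).congr_deriv ?_
  ring

lemma sum_intervals {ι : Type*} (P : Finset ι) (α : ι → ℝ) {δ x0 : ℝ} (hδ : 0 < δ)
    (hsep : ∀ i ∈ P, ∀ j ∈ P, i ≠ j → δ ≤ |α i - α j|) (hin : ∀ i ∈ P, x0 + δ / 2 ≤ α i ∧ α i ≤ x0 + 1 - δ / 2)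
    {F : ℝ → ℝ} (hF : Continuous F) (hF0 : ∀ x, 0 ≤ F x) :
    ∑ i ∈ P, ∫ x in (α i - δ / 2)..(α i + δ / 2), F x ≤ ∫ x in x0..(x0 + 1), F x := by
  classical
  have h1 : ∀ i, ∫ x in (α i - δ / 2)..(α i + δ / 2), F x = ∫ x in Ioc (α i - δ / 2) (α i + δ / 2), F x :=
    fun i => intervalIntegral.integral_of_le (by linarith)
  simp only [h1]
  rw [← integral_biUnion_finset P (fun i _ => measurableSet_Ioc) _
    (fun i _ => (hF.integrableOn_Icc).mono_set Ioc_subset_Icc_self), intervalIntegral.integral_of_le (by linarith)]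
  · apply setIntegral_mono_set ((hF.integrableOn_Icc).mono_set Ioc_subset_Icc_self)
    · exact Eventually.of_forall hF0
    · refine LE.le.eventuallyLE ?_
      intro x hx
      simp only [mem_iUnion] at hx
      obtain ⟨i, hi, hx1, hx2⟩ := hx
      obtain ⟨h2, h3⟩ := hin i hi
      constructor <;> linarith
  · intro i hi j hj hij
    rw [Function.onFun, Set.disjoint_left]
    intro x h2 h3
    have h4 := hsep i hi j hj hij
    have h5 : |α i - α j| < δ := by
      rw [abs_lt]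
      constructor <;> linarith [h2.1, h2.2, h3.1, h3.2]
    linarith

theorem additive_ls {ι : Type*} (P : Finset ι) (α : ι → ℝ) {δ x0 : ℝ} (hδ : 0 < δ)
    (hsep : ∀ i ∈ P, ∀ j ∈ P, i ≠ j → δ ≤ |α i - α j|) (hin : ∀ i ∈ P, x0 + δ / 2 ≤ α i ∧ α i ≤ x0 + 1 - δ / 2)
    (M N : ℕ) (a : ℕ → ℂ) :
    ∑ i ∈ P, ‖∑ n ∈ Finset.Ioc M (M + N), a n * ee (n * α i)‖ ^ 2 ≤
      (δ⁻¹ + Real.pi * N) * ∑ n ∈ Finset.Ioc M (M + N), ‖a n‖ ^ 2 := by
  set s := Finset.Ioc M (M + N) with hs
  set c : ℝ := M + N / 2 with hc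
  set b : ℕ → ℂ := fun n => a n * (2 * Real.pi * (n - c) * Complex.I) with hb
  set A : ℝ := ∑ n ∈ s, ‖a n‖ ^ 2 with hA
  have hA0 : 0 ≤ A := Finset.sum_nonneg fun _ _ => by positivity
  have hpi := Real.pi_pos
  set f : ℝ → ℝ := fun x => ‖SS s a c x‖ ^ 2 with hf
  set f' : ℝ → ℝ := fun x => 2 * inner ℝ (SS s a c x) (SS s b c x) with hf'
  have hd : ∀ x, HasDerivAt f (f' x) x := fun x => (SS_deriv s a c x).norm_sq
  have hSc := SS_cont s a c
  have hSc' := SS_cont s b c
  have hc' : Continuous f' := continuous_const.mul (hSc.inner hSc')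
  have hfc : Continuous f := (hSc.norm).pow 2
  have hbb : ∑ n ∈ s, ‖b n‖ ^ 2 ≤ (Real.pi * N) ^ 2 * A := by
    rw [hA, Finset.mul_sum]
    refine Finset.sum_le_sum fun n hn => ?_
    have h1 : ‖b n‖ = ‖a n‖ * (2 * Real.pi * |(n : ℝ) - c|) := by
      simp only [hb]
      rw [norm_mul, norm_mul, norm_mul, norm_mul, Complex.norm_I, mul_one, Complex.norm_real,
        Real.norm_of_nonneg hpi.le]
      have h2 : ‖((n : ℂ) - (c : ℂ))‖ = |(n : ℝ) - c| := by
        have h5 := Complex.norm_real ((n : ℝ) - c)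
        rw [Real.norm_eq_abs] at h5
        rw [← h5]
        push_cast
        rfl
      rw [h2]
      simp
    have h3 : |(n : ℝ) - c| ≤ N / 2 := by
      rw [hs, Finset.mem_Ioc] at hn
      have h4 : (M : ℝ) < n := by exact_mod_cast hn.1
      have h5 : (n : ℝ) ≤ M + N := by exact_mod_cast hn.2
      rw [abs_le, hc]
      constructor <;> linarith
    rw [h1, mul_pow, mul_comm ((Real.pi * N) ^ 2)]
    refine mul_le_mul_of_nonneg_left ?_ (by positivity)
    refine pow_le_pow_left₀ (by positivity) ?_ 2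
    nlinarith
  have hg : ∀ i ∈ P, ‖∑ n ∈ s, a n * ee (n * α i)‖ ^ 2 ≤
      δ⁻¹ * (∫ x in (α i - δ / 2)..(α i + δ / 2), f x) + 1 / 2 * ∫ x in (α i - δ / 2)..(α i + δ / 2), |f' x| := by
    intro i _
    have h1 := gallagher hd hc' (α i) hδ
    have h2 : ∑ n ∈ s, a n * ee (n * α i) = SS s a 0 (α i) := by
      unfold SS
      simp
    rw [h2, ← SS_norm s a c]
    exact h1
  refine (Finset.sum_le_sum hg).trans ?_
  rw [Finset.sum_add_distrib, ← Finset.mul_sum, ← Finset.mul_sum]
  have k1 := sum_intervals P α hδ hsep hin hfc (fun x => by positivity)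
  have k2 := sum_intervals P α hδ hsep hin hc'.abs (fun x => abs_nonneg _)
  have p1 : ∫ x in x0..(x0 + 1), f x = A := parseval s a c x0
  have p2 : ∫ x in x0..(x0 + 1), ‖SS s b c x‖ ^ 2 ≤ (Real.pi * N) ^ 2 * A := (parseval s b c x0).le.trans hbb
  -- ∫ |f'| ≤ 2 π N A
  have p3 : ∫ x in x0..(x0 + 1), |f' x| ≤ 2 * (Real.pi * N) * A := by
    rcases Nat.eq_zero_or_pos N with hN | hN
    · have hs0 : s = ∅ := by rw [hs, hN]; simp
      have : ∀ x, f' x = 0 := by
        intro x
        simp [hf', SS, hs0]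
      simp [this, hN]
    · set t : ℝ := Real.pi * N with ht
      have ht0 : 0 < t := by positivity
      have q1 : ∀ x, |f' x| ≤ t * ‖SS s a c x‖ ^ 2 + t⁻¹ * ‖SS s b c x‖ ^ 2 := by
        intro x
        have q2 : |f' x| ≤ 2 * (‖SS s a c x‖ * ‖SS s b c x‖) := by
          simp only [hf', abs_mul, abs_two]
          exact mul_le_mul_of_nonneg_left (abs_real_inner_le_norm _ _) (by norm_num)
        refine q2.trans ?_
        have q3 : t * ‖SS s a c x‖ ^ 2 + t⁻¹ * ‖SS s b c x‖ ^ 2 - 2 * (‖SS s a c x‖ * ‖SS s b c x‖) =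
            t * (‖SS s a c x‖ - t⁻¹ * ‖SS s b c x‖) ^ 2 := by
          field_simp
          ring
        have q4 : 0 ≤ t * (‖SS s a c x‖ - t⁻¹ * ‖SS s b c x‖) ^ 2 := by positivity
        linarith
      have q5 : ∫ x in x0..(x0 + 1), |f' x| ≤
          ∫ x in x0..(x0 + 1), (t * ‖SS s a c x‖ ^ 2 + t⁻¹ * ‖SS s b c x‖ ^ 2) := by
        refine intervalIntegral.integral_mono_on (by linarith) (hc'.abs.intervalIntegrable _ _)
          (Continuous.intervalIntegrable ?_ _ _) fun x _ => q1 x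
        exact (continuous_const.mul (hSc.norm.pow 2)).add (continuous_const.mul (hSc'.norm.pow 2))
      have j1 : IntervalIntegrable (fun x => t * ‖SS s a c x‖ ^ 2) volume x0 (x0 + 1) :=
        (continuous_const.mul (hSc.norm.pow 2)).intervalIntegrable _ _
      have j2 : IntervalIntegrable (fun x => t⁻¹ * ‖SS s b c x‖ ^ 2) volume x0 (x0 + 1) :=
        (continuous_const.mul (hSc'.norm.pow 2)).intervalIntegrable _ _
      rw [intervalIntegral.integral_add j1 j2,
        intervalIntegral.integral_const_mul, intervalIntegral.integral_const_mul] at q5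
      have q6 : t⁻¹ * (∫ x in x0..(x0 + 1), ‖SS s b c x‖ ^ 2) ≤ t⁻¹ * (t ^ 2 * A) :=
        mul_le_mul_of_nonneg_left p2 (by positivity)
      have q7 : t⁻¹ * (t ^ 2 * A) = t * A := by field_simp
      have q8 : ∫ x in x0..(x0 + 1), ‖SS s a c x‖ ^ 2 = A := p1
      rw [q8] at q5
      linarith
  have k3 : δ⁻¹ * (∑ i ∈ P, ∫ x in (α i - δ / 2)..(α i + δ / 2), f x) ≤ δ⁻¹ * A :=
    mul_le_mul_of_nonneg_left (k1.trans p1.le) (by positivity)
  have k4 : (1 / 2 : ℝ) * (∑ i ∈ P, ∫ x in (α i - δ / 2)..(α i + δ / 2), |f' x|) ≤ Real.pi * N * A := by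
    have := k2.trans p3
    linarith
  linarith

end Pool.Agent.Helper93.MLS
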