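import Pool.Agent.Helper93.KLA

/-!
From the finite bound for spherical codes to the kissing exponent.
-/

set_option autoImplicit false

open Filter Topology Finset
open scoped RealInnerProductSpace

namespace Pool.Agent.Helper93.KLA

/-- The finite bound (interface; to be proved by the Fischer product argument). -/
def FiniteBound : Prop :=
  ∀ (D m lo T : ℕ), 3 ≤ D → 2 ≤ m → m < D → m ≤ lo → lo ≤ T → ∀ b : ℕ → ℝ, (∀ j, 0 ≤ b j) →
    (∃ j, 0 < b j) → (∀ j, b j ≠ 0 → lo ≤ j ∧ j ≤ T) → ∀ s s' : ℝ, s < s' → s ≤ 1 →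
    (∀ j, lo ≤ j → j ≤ T →
      s' * b j ≤ b (j - 1) / j + b (j + 1) * cc D m (j - m) ^ 2 / kap D j) →
    ∀ C : Finset (Fin D → ℝ), (∀ x ∈ C, ∑ i, x i ^ 2 = 1) →
      (∀ x ∈ C, ∀ y ∈ C, x ≠ y → ∑ i, x i * y i ≤ s) →
      (C.card : ℝ) * (s' - s) * ((D - 1).choose m : ℝ) ≤
        (1 - s) * ∑ j ∈ Icc lo T, ((D + j - 1).choose j : ℝ)

/-- The interface of helper82 (dimension of harmonic polynomials by rank-nullity) implies
`FiniteBound`. -/
theorem finiteBound_of_harm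
    (H : ∀ (D m lo T : ℕ), 3 ≤ D → 2 ≤ m → m < D → m ≤ lo → lo ≤ T → ∀ b : ℕ → ℝ,
      (∀ j, 0 ≤ b j) → (∃ j, 0 < b j) → (∀ j, b j ≠ 0 → lo ≤ j ∧ j ≤ T) → ∀ s s' : ℝ, s < s' →
      s ≤ 1 → (∀ j, lo ≤ j → j ≤ T →
        s' * b j ≤ b (j - 1) / j + b (j + 1) * cc D m (j - m) ^ 2 / kap D j) →
      ∀ C : Finset (Fin D → ℝ), (∀ x ∈ C, ∑ i, x i ^ 2 = 1) →
        (∀ x ∈ C, ∀ y ∈ C, x ≠ y → ∑ i, x i * y i ≤ s) →
        (C.card : ℝ) * (s' - s) * (((D + m - 1).choose m : ℝ) - ((D + m - 2).choose (m - 1) : ℝ)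
          - ((D + m - 3).choose (m - 2) : ℝ)) ≤
          (1 - s) * ∑ j ∈ Icc lo T, ((D + j - 1).choose j : ℝ)) : FiniteBound := by
  intro D m lo T hD hm hmD hlo hT b hb hb1 hb2 s s' hs hs1 hrec C hC1 hC2
  refine le_trans ?_ (H D m lo T hD hm hmD hlo hT b hb hb1 hb2 s s' hs hs1 hrec C hC1 hC2)
  apply mul_le_mul_of_nonneg_left (choose_le_harm hm hmD)
  exact mul_nonneg (Nat.cast_nonneg _) (by linarith)

/-- The interface of helper89 (shifted levels `j = m + k`) implies `FiniteBound`. -/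
theorem finiteBound_of_shift
    (H : ∀ (D m K : ℕ), 3 ≤ D → 2 ≤ m → m < D → ∀ g : ℕ → ℝ, (∀ k, 0 ≤ g k) →
      (∀ k, K < k → g k = 0) → (∃ k, g k ≠ 0) → ∀ lam s : ℝ,
      (∀ k, lam * g k ≤ (if k = 0 then 0 else g (k - 1) / ((m : ℝ) + k)) +
        g (k + 1) * cc D m k ^ 2 / kap D (m + k)) → s < lam → s ≤ 1 →
      ∀ (N : ℕ) (x : Fin N → EuclideanSpace ℝ (Fin D)), (∀ i, ‖x i‖ = 1) →
        (∀ i j, i ≠ j → ⟪x i, x j⟫ ≤ s) →
        (N : ℝ) * (lam - s) * ((D - 1).choose m : ℝ) ≤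
          (1 - s) * ∑ k ∈ (range (K + 1)).filter (fun k => g k ≠ 0),
            ((D + (m + k) - 1).choose (m + k) : ℝ)) : FiniteBound := by
  classical
  intro D m lo T hD hm hmD hlo hT b hb hb1 hb2 s s' hs hs1 hrec C hC1 hC2
  have hb2' : ∀ j, ¬ (lo ≤ j ∧ j ≤ T) → b j = 0 := fun j hj => by
    by_contra h
    exact hj (hb2 j h)
  have hD' : (3 : ℝ) ≤ D := by exact_mod_cast hD
  -- enumerate the code
  let e := C.equivFin
  have key := H D m (T - m) hD hm hmD (fun k => b (m + k)) (fun k => hb _)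
    (fun k hk => hb2' _ (by omega))
    (by
      obtain ⟨j, hj⟩ := hb1
      have := hb2 j hj.ne'
      refine ⟨j - m, ?_⟩
      have e : m + (j - m) = j := by omega
      rw [e]
      exact hj.ne')
    s' s ?_ hs hs1 C.card
    (fun i => WithLp.toLp 2 ((e.symm i : C) : Fin D → ℝ)) ?_ ?_
  · refine key.trans ?_
    apply mul_le_mul_of_nonneg_left _ (by linarith)
    have hinj : Set.InjOn (fun k => m + k) ((((range (T - m + 1)).filter
        (fun k => b (m + k) ≠ 0)) : Finset ℕ) : Set ℕ) := fun a _ b _ h => by simpa using h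
    rw [← Finset.sum_image (f := fun j => ((D + j - 1).choose j : ℝ)) hinj]
    apply Finset.sum_le_sum_of_subset_of_nonneg
    · intro j hj
      obtain ⟨k, hk, rfl⟩ := Finset.mem_image.1 hj
      rw [Finset.mem_filter] at hk
      rw [Finset.mem_Icc]
      exact hb2 _ hk.2
    · intro j _ _
      positivity
  · intro k
    rcases Nat.eq_zero_or_pos k with rfl | hk
    · simp only [if_true, add_zero, zero_add]
      by_cases hin : lo ≤ m ∧ m ≤ T
      · have h1 := hrec m hin.1 hin.2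
        have h2 : b (m - 1) = 0 := hb2' _ (by omega)
        rw [h2, zero_div, Nat.sub_self] at h1
        simpa using h1
      · rw [hb2' m hin, mul_zero]
        have h3 := hb (m + 1)
        have h4 : 0 ≤ kap D m := by
          unfold kap
          have : (0 : ℝ) ≤ m := Nat.cast_nonneg _
          apply div_nonneg (mul_nonneg _ _) _ <;> linarith
        positivity
    · rw [if_neg (by omega)]
      by_cases hin : lo ≤ m + k ∧ m + k ≤ T
      · have h1 := hrec (m + k) hin.1 hin.2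
        have e1 : m + k - 1 = m + (k - 1) := by omega
        rw [Nat.add_sub_cancel_left, e1] at h1
        push_cast at h1
        exact h1
      · rw [hb2' _ hin, mul_zero]
        have h3 := hb (m + (k + 1))
        have h5 := hb (m + (k - 1))
        have h4 : 0 ≤ kap D (m + k) := by
          unfold kap
          have : (0 : ℝ) ≤ ((m + k : ℕ) : ℝ) := Nat.cast_nonneg _
          apply div_nonneg (mul_nonneg _ _) _ <;> linarith
        positivity
  · intro i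
    have h1 := hC1 _ (e.symm i).2
    rw [EuclideanSpace.norm_eq, Real.sqrt_eq_one]
    simpa [Real.norm_eq_abs, sq_abs] using h1
  · intro i j hij
    have h1 : ((e.symm i : C) : Fin D → ℝ) ≠ ((e.symm j : C) : Fin D → ℝ) := by
      intro h
      exact hij (e.symm.injective (Subtype.ext h))
    have h2 := hC2 _ (e.symm i).2 _ (e.symm j).2 h1
    rw [PiLp.inner_apply]
    simpa [mul_comm] using h2

/-- exponent of spherical codes with arbitrary angle -/
theorem codes_of_finite (HF : FiniteBound) {s κ τ ν : ℝ} (hs0 : 0 ≤ s) (hs1 : s ≤ 1) (hν : 0 < ν)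
    (hν2 : ν ≤ 1 / 2) (hντ : ν < τ)
    (hcond : s * ((1 + 2 * τ) * Real.sqrt (τ * (1 + τ))) < 2 * ((τ - ν) * (1 + τ + ν)))
    (hκ : Aup τ < 2 ^ κ * Blo ν) :
    ∀ᶠ d : ℕ in atTop, ∀ C : Finset (EuclideanSpace ℝ (Fin d)), (∀ x ∈ C, ‖x‖ = 1) →
      (∀ x ∈ C, ∀ y ∈ C, x ≠ y → ⟪x, y⟫ ≤ s) → (C.card : ℝ) ≤ 2 ^ (κ * d) := by
  filter_upwards [asymp hs0 hs1 hν hν2 hντ hcond hκ, eventually_ge_atTop 3] with D hD1 hD3 C hC1 hC2
  obtain ⟨m, lo, T, b, s', hm, hlo, hT, hb, hb1, hb2, hs', hrec, hch, hfin⟩ := hD1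
  have hmD : m < D := by
    by_contra h
    rw [Nat.choose_eq_zero_of_lt (by omega)] at hch
    simp at hch
  classical
  have hinj : Function.Injective (fun x : EuclideanSpace ℝ (Fin D) => (x.ofLp : Fin D → ℝ)) :=
    fun x y h => by ext i; exact congrFun h i
  have key := HF D m lo T hD3 hm hmD hlo hT b hb hb1 hb2 s s' hs' hs1 hrec
    (C.image fun x => (x.ofLp : Fin D → ℝ)) ?_ ?_
  · rw [Finset.card_image_of_injective _ hinj] at key
    have h1 := key.trans hfin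
    have h2 : 0 < (s' - s) * ((D - 1).choose m : ℝ) := mul_pos (by linarith) hch
    rw [mul_assoc] at h1
    exact le_of_mul_le_mul_right h1 h2
  · intro x' hx'
    obtain ⟨x, hx, rfl⟩ := Finset.mem_image.1 hx'
    have h1 := hC1 x hx
    have h2 := EuclideanSpace.real_norm_sq_eq x
    rw [h1] at h2
    simp only at *
    linarith
  · intro x' hx' y' hy' hne
    obtain ⟨x, hx, rfl⟩ := Finset.mem_image.1 hx'
    obtain ⟨y, hy, rfl⟩ := Finset.mem_image.1 hy'
    have hxy : x ≠ y := fun h => hne (by rw [h])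
    have h1 := hC2 x hx y hy hxy
    rw [PiLp.inner_apply] at h1
    simpa [mul_comm] using h1

/-- The kissing number of the unit ball of `ℝ^d`: the largest number of unit balls with pairwise
disjoint interiors touching the closed unit ball around the origin from outside.  Their centres
have norm `2` and pairwise distances at least `2`. -/
noncomputable def tau (d : ℕ) : ℕ :=
  sSup {N : ℕ | ∃ C : Finset (EuclideanSpace ℝ (Fin d)), C.card = N ∧ (∀ x ∈ C, ‖x‖ = 2) ∧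
    ∀ x ∈ C, ∀ y ∈ C, x ≠ y → 2 ≤ dist x y}

lemma kiss_code {d : ℕ} {C : Finset (EuclideanSpace ℝ (Fin d))} (h1 : ∀ x ∈ C, ‖x‖ = 2)
    (h2 : ∀ x ∈ C, ∀ y ∈ C, x ≠ y → 2 ≤ dist x y) :
    ∃ C' : Finset (EuclideanSpace ℝ (Fin d)), C'.card = C.card ∧ (∀ x ∈ C', ‖x‖ = 1) ∧
      ∀ x ∈ C', ∀ y ∈ C', x ≠ y → ⟪x, y⟫ ≤ 1 / 2 := by
  classical
  have hinj : Function.Injective (fun x : EuclideanSpace ℝ (Fin d) => (2⁻¹ : ℝ) • x) :=
    smul_right_injective _ (by norm_num)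
  refine ⟨C.image fun x => (2⁻¹ : ℝ) • x, Finset.card_image_of_injective _ hinj, ?_, ?_⟩
  · intro x' hx'
    obtain ⟨x, hx, rfl⟩ := Finset.mem_image.1 hx'
    rw [norm_smul, h1 x hx]
    norm_num
  · intro x' hx' y' hy' hne
    obtain ⟨x, hx, rfl⟩ := Finset.mem_image.1 hx'
    obtain ⟨y, hy, rfl⟩ := Finset.mem_image.1 hy'
    have hxy : x ≠ y := fun h => hne (by rw [h])
    have h3 := h2 x hx y hy hxy
    have h4 : dist x y ^ 2 = ‖x‖ ^ 2 - 2 * ⟪x, y⟫ + ‖y‖ ^ 2 := by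
      rw [dist_eq_norm]; exact norm_sub_sq_real x y
    rw [h1 x hx, h1 y hy] at h4
    rw [real_inner_smul_left, real_inner_smul_right]
    nlinarith [pow_le_pow_left₀ (by norm_num : (0 : ℝ) ≤ 2) h3 2]

/-- **The kissing exponent.** -/
theorem kissing_of_finite (HF : FiniteBound) :
    (∀ᶠ d : ℕ in atTop, (tau d : ℝ) ≤ 2 ^ ((0.39735 : ℝ) * d)) ∧
      limsup (fun d : ℕ => Real.logb 2 (tau d) / d) atTop ≤ 0.39735 := by
  have h0 := codes_of_finite HF (s := 1 / 2) (κ := 1496 / 3765) (τ := 65 / 753) (ν := 1 / 251)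
    (by norm_num) (by norm_num) (by norm_num) (by norm_num) (by norm_num) num_cond num_exp
  have hB : ∀ᶠ d : ℕ in atTop, ∀ N ∈ {N : ℕ | ∃ C : Finset (EuclideanSpace ℝ (Fin d)),
      C.card = N ∧ (∀ x ∈ C, ‖x‖ = 2) ∧ ∀ x ∈ C, ∀ y ∈ C, x ≠ y → 2 ≤ dist x y},
      (N : ℝ) ≤ 2 ^ ((0.39735 : ℝ) * d) := by
    filter_upwards [h0] with d hd
    rintro N ⟨C, rfl, h1, h2⟩
    obtain ⟨C', h3, h4, h5⟩ := kiss_code h1 h2
    rw [← h3]
    refine (hd C' h4 h5).trans ?_
    apply Real.rpow_le_rpow_of_exponent_le (by norm_num)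
    apply mul_le_mul_of_nonneg_right (by norm_num) (Nat.cast_nonneg _)
  have hT : ∀ᶠ d : ℕ in atTop, (tau d : ℝ) ≤ 2 ^ ((0.39735 : ℝ) * d) := by
    filter_upwards [hB] with d hd
    have hmem := Nat.sSup_mem (s := {N : ℕ | ∃ C : Finset (EuclideanSpace ℝ (Fin d)),
      C.card = N ∧ (∀ x ∈ C, ‖x‖ = 2) ∧ ∀ x ∈ C, ∀ y ∈ C, x ≠ y → 2 ≤ dist x y})
      ⟨0, ∅, by simp, by simp, by simp⟩
      ⟨⌊(2 : ℝ) ^ ((0.39735 : ℝ) * d)⌋₊, fun N hN => Nat.le_floor (hd N hN)⟩
    exact hd _ hmem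
  have hT1 : ∀ᶠ d : ℕ in atTop, 1 ≤ tau d := by
    filter_upwards [hB, eventually_ge_atTop 1] with d hd hd1
    have : NeZero d := ⟨by omega⟩
    apply le_csSup
    · exact ⟨⌊(2 : ℝ) ^ ((0.39735 : ℝ) * d)⌋₊, fun N hN => Nat.le_floor (hd N hN)⟩
    · refine ⟨{EuclideanSpace.single (0 : Fin d) (2 : ℝ)}, by simp, by simp, ?_⟩
      intro x hx y hy hne
      rw [Finset.mem_singleton] at hx hy
      exact absurd (hx.trans hy.symm) hne
  refine ⟨hT, ?_⟩
  apply limsup_le_of_le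
  · apply IsBoundedUnder.isCoboundedUnder_le
    refine ⟨0, ?_⟩
    rw [eventually_map]
    filter_upwards [hT1] with d hd
    have h2 : 0 ≤ Real.logb 2 (tau d) := Real.logb_nonneg (by norm_num) (by exact_mod_cast hd)
    positivity
  · filter_upwards [hT, hT1, eventually_ge_atTop 1] with d h3 h1 hd1
    have hd0 : (0 : ℝ) < d := by exact_mod_cast hd1
    rw [div_le_iff₀ hd0]
    rw [Real.logb_le_iff_le_rpow (by norm_num) (by exact_mod_cast h1)]
    exact h3

end Pool.Agent.Helper93.KLA
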